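import Mathlib

/-!
Tubes, tubings, facet-Hamiltonian cycles of graph associahedra; connectivity helper lemmas.
-/

namespace Pool.Agent.H56.FH

variable {V : Type*} [Fintype V] [DecidableEq V]

/-- `t` is a tube of `G`: nonempty, proper, and `G[t]` is connected. -/
def IsTube (G : SimpleGraph V) (t : Finset V) : Prop :=
  t.Nonempty ∧ t ≠ Finset.univ ∧ (G.induce (t : Set V)).Connected

/-- Two sets are compatible: nested, or `G[s ∪ t]` is disconnected. -/
def Compatible (G : SimpleGraph V) (s t : Finset V) : Prop :=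
  s ⊆ t ∨ t ⊆ s ∨ ¬ (G.induce ((s ∪ t : Finset V) : Set V)).Connected

/-- A tubing: a set of pairwise compatible tubes. -/
def IsTubing (G : SimpleGraph V) (T : Finset (Finset V)) : Prop :=
  (∀ t ∈ T, IsTube G t) ∧ ∀ s ∈ T, ∀ t ∈ T, Compatible G s t

/-- An inclusion-maximal tubing, i.e. a vertex of the graph associahedron. -/
def IsMaxTubing (G : SimpleGraph V) (T : Finset (Finset V)) : Prop :=
  IsTubing G T ∧ ∀ T', IsTubing G T' → T ⊆ T' → T' = T

/-- Two sets of tubes share all but one tube. -/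
def ShareAllButOne (X Y : Finset (Finset V)) : Prop :=
  (X \ Y).card = 1 ∧ (Y \ X).card = 1

/-- The graph associahedron of `G` has a facet-Hamiltonian cycle. -/
def FacetHamiltonian (G : SimpleGraph V) : Prop :=
  ∃ N : ℕ, 3 ≤ N ∧ ∃ C : ZMod N → Finset (Finset V),
    Function.Injective C ∧ (∀ i, IsMaxTubing G (C i)) ∧
    (∀ i, ShareAllButOne (C i) (C (i + 1))) ∧
    ∀ t, IsTube G t → ∃ a : ZMod N, ∃ k : ℕ, ∀ i, t ∈ C i ↔ ∃ j : ℕ, j ≤ k ∧ i = a + (j : ZMod N)

/-! ### Connectivity of finsets -/

/-- `G[s]` is connected. -/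
def Conn (G : SimpleGraph V) (s : Finset V) : Prop := (G.induce (s : Set V)).Connected

omit [Fintype V] [DecidableEq V] in
theorem Conn.nonempty {G : SimpleGraph V} {s : Finset V} (h : Conn G s) : s.Nonempty := by
  have h' : (G.induce (s : Set V)).Connected := h
  obtain ⟨x⟩ := h'.nonempty
  exact ⟨x.1, by simpa using x.2⟩

omit [Fintype V] [DecidableEq V] in
theorem conn_singleton (G : SimpleGraph V) (x : V) : Conn G {x} := by
  unfold Conn
  have : ((({x} : Finset V)) : Set V) = {x} := by simp
  rw [SimpleGraph.connected_iff_exists_forall_reachable]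
  refine ⟨⟨x, by simp⟩, ?_⟩
  rintro ⟨w, hw⟩
  have : w = x := by simpa using hw
  subst this
  exact SimpleGraph.Reachable.refl _

omit [Fintype V] in
theorem Conn.union_adj {G : SimpleGraph V} {s t : Finset V} (hs : Conn G s) (ht : Conn G t)
    {c d : V} (hc : c ∈ s) (hd : d ∈ t) (h : G.Adj c d) : Conn G (s ∪ t) := by
  unfold Conn
  rw [Finset.coe_union]
  exact SimpleGraph.connected_induce_union hs.preconnected ht.preconnected
    (by simpa using hc) (by simpa using hd) h

omit [Fintype V] in
theorem Conn.union_mem {G : SimpleGraph V} {s t : Finset V} (hs : Conn G s) (ht : Conn G t)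
    {c : V} (hc : c ∈ s) (hd : c ∈ t) : Conn G (s ∪ t) := by
  unfold Conn
  rw [Finset.coe_union]
  exact SimpleGraph.induce_union_connected hs.preconnected ht.preconnected
    ⟨c, by simpa using hc, by simpa using hd⟩

omit [Fintype V] in
theorem Conn.insert_adj {G : SimpleGraph V} {s : Finset V} (hs : Conn G s)
    {c x : V} (hc : c ∈ s) (h : G.Adj c x) : Conn G (insert x s) := by
  have := hs.union_adj (conn_singleton G x) hc (Finset.mem_singleton_self x) h
  have e : s ∪ {x} = insert x s := by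
    ext y; simp
  rwa [e] at this

omit [Fintype V] in
/-- a connected set has an edge leaving any nonempty proper subset -/
theorem Conn.exists_adj {G : SimpleGraph V} {u s : Finset V} (hu : Conn G u)
    {a b : V} (ha : a ∈ u) (has : a ∈ s) (hb : b ∈ u) (hbs : b ∉ s) :
    ∃ c ∈ u, c ∈ s ∧ ∃ x ∈ u, x ∉ s ∧ G.Adj c x := by
  by_contra hcon
  push Not at hcon
  have hr : (G.induce (u : Set V)).Reachable ⟨a, by simpa using ha⟩ ⟨b, by simpa using hb⟩ :=
    SimpleGraph.Connected.preconnected hu _ _
  obtain ⟨p⟩ := hr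
  have key : ∀ (y z : (u : Set V)) (q : (G.induce (u : Set V)).Walk y z), (y : V) ∈ s → (z : V) ∈ s := by
    intro y z q
    induction q with
    | nil => exact id
    | @cons y w z h q ih =>
      intro hy
      apply ih
      by_contra hw
      exact hcon y (by simp) hy w (by simp) hw (by simpa using h)
  exact hbs (key _ _ p has)

omit [Fintype V] in
/-- the closed connected component of a connected set inside `S` -/
theorem exists_closed {G : SimpleGraph V} {s0 S : Finset V} (h0 : Conn G s0) (hS : s0 ⊆ S) :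
    ∃ D, s0 ⊆ D ∧ D ⊆ S ∧ Conn G D ∧ ∀ x ∈ S, x ∉ D → ∀ c ∈ D, ¬ G.Adj c x := by
  classical
  have hne : (S.powerset.filter (fun D => s0 ⊆ D ∧ Conn G D)).Nonempty :=
    ⟨s0, by simp [hS, h0]⟩
  obtain ⟨D, hD, hmax⟩ := Finset.exists_max_image _ (fun D => D.card) hne
  simp only [Finset.mem_filter, Finset.mem_powerset] at hD hmax
  refine ⟨D, hD.2.1, hD.1, hD.2.2, ?_⟩
  intro x hx hxD c hc hadj
  have h1 := hD.2.2.insert_adj hc hadj
  have h2 := hmax (insert x D) ⟨Finset.insert_subset hx hD.1,
    hD.2.1.trans (Finset.subset_insert _ _), h1⟩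
  rw [Finset.card_insert_of_notMem hxD] at h2
  omega

omit [DecidableEq V] in
theorem conn_univ {G : SimpleGraph V} (hG : G.Connected) : Conn G Finset.univ := by
  unfold Conn
  rw [Finset.coe_univ]
  exact (SimpleGraph.induceUnivIso G).connected_iff.mpr hG

/-- any two distinct compatible tubes have a common incompatible tube -/
theorem common_enemy {G : SimpleGraph V} (hG : G.Connected) {s t : Finset V}
    (hs : IsTube G s) (ht : IsTube G t) (hne : s ≠ t) (hc : Compatible G s t) :
    ∃ r, IsTube G r ∧ ¬ Compatible G r s ∧ ¬ Compatible G r t := by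
  have hGu := conn_univ hG
  -- nested case
  have nested : ∀ s t : Finset V, IsTube G s → IsTube G t → s ≠ t → s ⊆ t →
      ∃ r, IsTube G r ∧ ¬ Compatible G r s ∧ ¬ Compatible G r t := by
    intro s t hs ht hne hst
    obtain ⟨a, ha⟩ := hs.1
    obtain ⟨b, hb⟩ : ∃ b, b ∉ t := by
      by_contra h
      push Not at h
      exact ht.2.1 (Finset.eq_univ_iff_forall.mpr h)
    obtain ⟨c, -, hct, p, -, hpt, hcp⟩ :=
      hGu.exists_adj (s := t) (Finset.mem_univ a) (hst ha) (Finset.mem_univ b) hb
    have hpt' : Conn G (insert p t) := Conn.insert_adj ht.2.2 hct hcp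
    have hps : p ∉ s := fun h => hpt (hst h)
    obtain ⟨r, hpr, hrS, hrc, hrcl⟩ := exists_closed (G := G) (s0 := {p}) (S := insert p t \ s)
      (conn_singleton G p) (by simp [hps])
    have hpr' : p ∈ r := hpr (Finset.mem_singleton_self p)
    have har : a ∉ r := fun h => (Finset.mem_sdiff.mp (hrS h)).2 ha
    obtain ⟨d, -, hdr, x, hx, hxr, hdx⟩ := hpt'.exists_adj (s := r)
      (Finset.mem_insert_self p t) hpr' (Finset.mem_insert_of_mem (hst ha)) har
    have hxs : x ∈ s := by
      by_contra hxs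
      exact hrcl x (Finset.mem_sdiff.mpr ⟨hx, hxs⟩) hxr d hdr hdx
    refine ⟨r, ⟨hrc.nonempty, ?_, hrc⟩, ?_, ?_⟩
    · intro h
      exact har (h ▸ Finset.mem_univ a)
    · rintro (h | h | h)
      · exact hps (h hpr')
      · exact har (h ha)
      · exact h (hrc.union_adj hs.2.2 hdr hxs hdx)
    · rintro (h | h | h)
      · exact hpt (h hpr')
      · exact har (h (hst ha))
      · exact h (hrc.union_adj ht.2.2 hpr' hct hcp.symm)
  rcases hc with h | h | h
  · exact nested s t hs ht hne h
  · obtain ⟨r, h1, h2, h3⟩ := nested t s ht hs (Ne.symm hne) h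
    exact ⟨r, h1, h3, h2⟩
  · -- disconnected union
    have hdisj : ∀ x ∈ s, x ∉ t := fun x hx hx' => h (Conn.union_mem hs.2.2 ht.2.2 hx hx')
    have hnadj : ∀ x ∈ s, ∀ y ∈ t, ¬ G.Adj x y := fun x hx y hy hxy =>
      h (Conn.union_adj hs.2.2 ht.2.2 hx hy hxy)
    obtain ⟨D, hsD, hDS, hDc, hDcl⟩ := exists_closed (G := G) (s0 := s) (S := Finset.univ \ t)
      hs.2.2 (fun x hx => by simp [hdisj x hx])
    obtain ⟨a, ha⟩ := hs.1
    obtain ⟨b, hb⟩ := ht.1
    have hbD : b ∉ D := fun h => (Finset.mem_sdiff.mp (hDS h)).2 hb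
    obtain ⟨c, -, hcD, x, -, hxD, hcx⟩ := hGu.exists_adj (s := D) (Finset.mem_univ a) (hsD ha)
      (Finset.mem_univ b) hbD
    have hxt : x ∈ t := by
      by_contra hxt
      exact hDcl x (by simp [hxt]) hxD c hcD hcx
    have hcs : c ∉ s := fun h => hnadj c h x hxt hcx
    obtain ⟨r, hcr, hrS, hrc, hrcl⟩ := exists_closed (G := G) (s0 := {c}) (S := D \ s)
      (conn_singleton G c) (by simp [hcD, hcs])
    have hcr' : c ∈ r := hcr (Finset.mem_singleton_self c)
    have har : a ∉ r := fun h => (Finset.mem_sdiff.mp (hrS h)).2 ha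
    obtain ⟨d, -, hdr, y, hy, hyr, hdy⟩ := hDc.exists_adj (s := r) hcD hcr' (hsD ha) har
    have hys : y ∈ s := by
      by_contra hys
      exact hrcl y (Finset.mem_sdiff.mpr ⟨hy, hys⟩) hyr d hdr hdy
    have hct : c ∉ t := (Finset.mem_sdiff.mp (hDS hcD)).2
    have hbr : b ∉ r := fun h => hbD (Finset.mem_sdiff.mp (hrS h)).1
    refine ⟨r, ⟨hrc.nonempty, ?_, hrc⟩, ?_, ?_⟩
    · intro h
      exact har (h ▸ Finset.mem_univ a)
    · rintro (h | h | h)
      · exact hcs (h hcr')
      · exact har (h ha)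
      · exact h (hrc.union_adj hs.2.2 hdr hys hdy)
    · rintro (h | h | h)
      · exact hct (h hcr')
      · exact hbr (h hb)
      · exact h (hrc.union_adj ht.2.2 hcr' hxt hcx)

/-- every tube has an incompatible tube -/
theorem exists_enemy {G : SimpleGraph V} (hG : G.Connected) {t : Finset V} (ht : IsTube G t) :
    ∃ r, IsTube G r ∧ ¬ Compatible G r t := by
  have hGu := conn_univ hG
  obtain ⟨a, ha⟩ := ht.1
  obtain ⟨b, hb⟩ : ∃ b, b ∉ t := by
    by_contra h
    push Not at h
    exact ht.2.1 (Finset.eq_univ_iff_forall.mpr h)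
  obtain ⟨c, -, hct, p, -, hpt, hcp⟩ :=
    hGu.exists_adj (s := t) (Finset.mem_univ a) ha (Finset.mem_univ b) hb
  by_cases h1 : t = {c}
  · -- then {p} is incompatible
    refine ⟨{p}, ⟨⟨p, by simp⟩, ?_, conn_singleton G p⟩, ?_⟩
    · intro h
      have : c ∈ ({p} : Finset V) := h ▸ Finset.mem_univ c
      rw [Finset.mem_singleton] at this
      exact hpt (this ▸ hct)
    · rintro (h | h | h)
      · exact hpt (h (by simp))
      · have := h hct
        rw [Finset.mem_singleton] at this
        exact hpt (this ▸ hct)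
      · exact h ((conn_singleton G p).union_adj ht.2.2 (by simp) hct hcp.symm)
  · refine ⟨{p}, ⟨⟨p, by simp⟩, ?_, conn_singleton G p⟩, ?_⟩
    · intro h
      have : c ∈ ({p} : Finset V) := h ▸ Finset.mem_univ c
      rw [Finset.mem_singleton] at this
      exact hpt (this ▸ hct)
    · rintro (h | h | h)
      · exact hpt (h (by simp))
      · have := h hct
        rw [Finset.mem_singleton] at this
        exact hpt (this ▸ hct)
      · exact h ((conn_singleton G p).union_adj ht.2.2 (by simp) hct hcp.symm)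

end Pool.Agent.H56.FH
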