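import Pool.Agent.H56.FH.Event

/-!
Counting the sets with a given top, and completeness: every connected set has a top.
-/

namespace Pool.Agent.H56.FH

open RF

section
variable {V : Type*} [DecidableEq V]

theorem Tb_subset (F : RF V) : ∀ f ∈ Tb F, (∀ x ∈ f, x ∈ E F) ∧ f.Nonempty := by
  induction F with
  | nil => intro f hf; simp [Tb] at hf
  | cons v ch sib ih1 ih2 =>
    intro f hf
    simp only [Tb, Finset.mem_union, Finset.mem_image] at hf
    have hE : ∀ x, x ∈ E (cons v ch sib) ↔ x ∈ E sib ∨ x = v ∨ x ∈ E ch := by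
      intro x; simp [E]
    rcases hf with (⟨g, hg, rfl⟩ | hf) | hf
    · refine ⟨fun x hx => ?_, ⟨v, by simp⟩⟩
      rw [hE]
      rcases Finset.mem_insert.mp hx with h | h
      · exact Or.inr (Or.inl h)
      · exact Or.inr (Or.inr (J_subset ch g hg x h))
    · exact ⟨fun x hx => (hE x).mpr (Or.inr (Or.inr ((ih1 f hf).1 x hx))), (ih1 f hf).2⟩
    · exact ⟨fun x hx => (hE x).mpr (Or.inl ((ih2 f hf).1 x hx)), (ih2 f hf).2⟩

omit [DecidableEq V] in
theorem nodup_cons {v : V} {ch sib : RF V} (h : (E (cons v ch sib)).Nodup) :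
    (E sib).Nodup ∧ (E ch).Nodup ∧ v ∉ E ch ∧ (∀ x ∈ v :: E ch, x ∉ E sib) := by
  simp only [E, List.nodup_append, List.nodup_cons] at h
  refine ⟨h.1, h.2.1.2, h.2.1.1, ?_⟩
  intro x hx hx'
  exact h.2.2 x hx' x hx rfl

theorem card_J (F : RF V) (h : (E F).Nodup) : (J F).card = M F + 1 := by
  induction F with
  | nil => simp [J, M]
  | cons v ch sib ih1 ih2 =>
    obtain ⟨h1, h2, h3, h4⟩ := nodup_cons h
    simp only [J]
    rw [Finset.card_image_of_injOn, Finset.card_product, Finset.card_insert_of_notMem,
      Finset.card_image_of_injOn, ih1 h2, ih2 h1]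
    · simp only [M]; ring
    · intro a ha b hb hab
      have ha' : v ∉ a := fun hv => h3 (J_subset ch a (by simpa using ha) v hv)
      have hb' : v ∉ b := fun hv => h3 (J_subset ch b (by simpa using hb) v hv)
      calc a = (insert v a).erase v := (Finset.erase_insert ha').symm
        _ = (insert v b).erase v := by rw [hab]
        _ = b := Finset.erase_insert hb'
    · intro hmem
      obtain ⟨a, _, ha⟩ := Finset.mem_image.mp hmem
      exact (Finset.insert_ne_empty v a) ha
    · rintro ⟨a1, a2⟩ ha ⟨b1, b2⟩ hb hab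
      have hfac : ∀ a1 a2 : Finset V, (a1, a2) ∈ ((insert ∅ ((J ch).image (insert v))) ×ˢ J sib) →
          (∀ x ∈ a1, x ∉ E sib) ∧ (∀ x ∈ a2, x ∈ E sib) := by
        intro a1 a2 ha
        rw [Finset.mem_product] at ha
        refine ⟨?_, fun x hx => J_subset sib a2 ha.2 x hx⟩
        intro x hx
        apply h4
        rcases Finset.mem_insert.mp ha.1 with h | h
        · simp only at h
          rw [h] at hx; simp at hx
        · obtain ⟨c, hc, hc'⟩ := Finset.mem_image.mp h
          simp only at hc'
          rw [← hc'] at hx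
          rcases Finset.mem_insert.mp hx with h | h
          · rw [h]; exact List.mem_cons_self
          · exact List.mem_cons_of_mem _ (J_subset ch c hc x h)
      obtain ⟨p1, p2⟩ := hfac a1 a2 (by simpa using ha)
      obtain ⟨q1, q2⟩ := hfac b1 b2 (by simpa using hb)
      simp only at hab
      have e1 : a1 = b1 := by
        ext x
        constructor
        · intro hx
          have : x ∈ b1 ∪ b2 := hab ▸ Finset.mem_union_left _ hx
          rcases Finset.mem_union.mp this with h | h
          · exact h
          · exact absurd (q2 x h) (p1 x hx)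
        · intro hx
          have : x ∈ a1 ∪ a2 := hab ▸ Finset.mem_union_left _ hx
          rcases Finset.mem_union.mp this with h | h
          · exact h
          · exact absurd (p2 x h) (q1 x hx)
      have e2 : a2 = b2 := by
        ext x
        constructor
        · intro hx
          have : x ∈ b1 ∪ b2 := hab ▸ Finset.mem_union_right _ hx
          rcases Finset.mem_union.mp this with h | h
          · exact absurd (p2 x hx) (q1 x h)
          · exact h
        · intro hx
          have : x ∈ a1 ∪ a2 := hab ▸ Finset.mem_union_right _ hx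
          rcases Finset.mem_union.mp this with h | h
          · exact absurd (q2 x hx) (p1 x h)
          · exact h
      rw [e1, e2]

theorem card_Tb (F : RF V) (h : (E F).Nodup) : (Tb F).card = ev F := by
  induction F with
  | nil => simp [Tb, ev]
  | cons v ch sib ih1 ih2 =>
    obtain ⟨h1, h2, h3, h4⟩ := nodup_cons h
    simp only [Tb]
    rw [Finset.card_union_of_disjoint, Finset.card_union_of_disjoint, ih1 h2, ih2 h1,
      Finset.card_image_of_injOn, card_J ch h2]
    · simp only [ev]; ring
    · intro a ha b hb hab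
      have ha' : v ∉ a := fun hv => h3 (J_subset ch a (by simpa using ha) v hv)
      have hb' : v ∉ b := fun hv => h3 (J_subset ch b (by simpa using hb) v hv)
      calc a = (insert v a).erase v := (Finset.erase_insert ha').symm
        _ = (insert v b).erase v := by rw [hab]
        _ = b := Finset.erase_insert hb'
    · rw [Finset.disjoint_left]
      intro a ha ha'
      obtain ⟨b, _, rfl⟩ := Finset.mem_image.mp ha
      exact h3 ((Tb_subset ch _ ha').1 v (Finset.mem_insert_self _ _))
    · rw [Finset.disjoint_left]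
      intro a ha ha'
      obtain ⟨hs, ⟨x, hx⟩⟩ := Tb_subset sib a ha'
      refine h4 x ?_ (hs x hx)
      rcases Finset.mem_union.mp ha with h | h
      · obtain ⟨b, hb, rfl⟩ := Finset.mem_image.mp h
        rcases Finset.mem_insert.mp hx with h | h
        · rw [h]; exact List.mem_cons_self
        · exact List.mem_cons_of_mem _ (J_subset ch b hb x h)
      · exact List.mem_cons_of_mem _ ((Tb_subset ch a h).1 x hx)

theorem full_mem_J (F : RF V) : (E F).toFinset ∈ J F := by
  induction F with
  | nil => simp [J, E]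
  | cons v ch sib ih1 ih2 =>
    rw [mem_J_cons]
    refine ⟨insert v (E ch).toFinset, (E sib).toFinset, Or.inr ⟨_, ih1, rfl⟩, ih2, ?_⟩
    simp [E, Finset.union_comm]

/-- parent-closedness of `t` along the forest -/
def PC (t : Finset V) : RF V → Prop
  | nil => True
  | cons v ch sib => ((∃ x ∈ E ch, x ∈ t) → v ∈ t) ∧ PC t ch ∧ PC t sib

theorem mem_J_of_PC (t : Finset V) (F : RF V) (h : PC t F) : t ∩ (E F).toFinset ∈ J F := by
  induction F with
  | nil => simp [J, E]
  | cons v ch sib ih1 ih2 =>
    obtain ⟨h1, h2, h3⟩ := h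
    rw [mem_J_cons]
    by_cases hv : v ∈ t
    · refine ⟨insert v (t ∩ (E ch).toFinset), t ∩ (E sib).toFinset, Or.inr ⟨_, ih1 h2, rfl⟩,
        ih2 h3, ?_⟩
      ext x
      simp only [E, Finset.mem_inter, List.mem_toFinset, List.mem_append, List.mem_cons,
        Finset.mem_union, Finset.mem_insert]
      constructor
      · rintro ⟨hx, h | h | h⟩
        · exact Or.inr ⟨hx, h⟩
        · exact Or.inl (Or.inl h)
        · exact Or.inl (Or.inr ⟨hx, h⟩)
      · rintro ((h | ⟨hx, h⟩) | ⟨hx, h⟩)
        · exact ⟨h ▸ hv, Or.inr (Or.inl h)⟩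
        · exact ⟨hx, Or.inr (Or.inr h)⟩
        · exact ⟨hx, Or.inl h⟩
    · refine ⟨∅, t ∩ (E sib).toFinset, Or.inl rfl, ih2 h3, ?_⟩
      ext x
      simp only [E, Finset.mem_inter, List.mem_toFinset, List.mem_append, List.mem_cons,
        Finset.empty_union]
      constructor
      · rintro ⟨hx, h | h | h⟩
        · exact ⟨hx, h⟩
        · exact absurd (h ▸ hx) hv
        · exact absurd (h1 ⟨x, h, hx⟩) hv
      · rintro ⟨hx, h⟩
        exact ⟨hx, Or.inl h⟩

/-- no edges from the forest to the outside -/
def Out (G : SimpleGraph V) (z : V) (F : RF V) : Prop :=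
  ∀ x ∈ E F, ∀ y, y ∉ z :: E F → ¬ G.Adj x y

theorem out_ch {G : SimpleGraph V} {z v : V} {ch sib : RF V} (hs : Sep G z (cons v ch sib))
    (ho : Out G z (cons v ch sib)) : Out G v ch := by
  intro x hx y hy hadj
  obtain ⟨s1, s2, s3, s4⟩ := hs
  by_cases h1 : y = z
  · subst h1
    exact s1 x hx hadj.symm
  · by_cases h2 : y ∈ E sib
    · exact s2 x (List.mem_cons_of_mem _ hx) y h2 hadj
    · refine ho x (by simp [E, hx]) y ?_ hadj
      simp only [E, List.mem_cons, List.mem_append] at hy ⊢
      tauto

theorem out_sib {G : SimpleGraph V} {z v : V} {ch sib : RF V} (hs : Sep G z (cons v ch sib))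
    (ho : Out G z (cons v ch sib)) : Out G z sib := by
  intro x hx y hy hadj
  obtain ⟨s1, s2, s3, s4⟩ := hs
  by_cases h2 : y ∈ v :: E ch
  · exact s2 y h2 x hx hadj.symm
  · refine ho x (by simp [E, hx]) y ?_ hadj
    simp only [E, List.mem_cons, List.mem_append] at hy h2 ⊢
    tauto

theorem PC_of_conn {G : SimpleGraph V} {t : Finset V} (ht : Conn G t) (F : RF V) :
    ∀ z, Sep G z F → Out G z F → (∃ w ∈ t, w ∉ E F) → PC t F := by
  induction F with
  | nil => intro z _ _ _; trivial
  | cons v ch sib ih1 ih2 =>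
    intro z hs ho ⟨w, hw, hwF⟩
    have hE : ∀ x, x ∈ E (cons v ch sib) ↔ x ∈ E sib ∨ x = v ∨ x ∈ E ch := by
      intro x; simp [E]
    rw [hE] at hwF
    push Not at hwF
    refine ⟨?_, ih1 v hs.2.2.1 (out_ch hs ho) ⟨w, hw, hwF.2.2⟩,
      ih2 z hs.2.2.2 (out_sib hs ho) ⟨w, hw, hwF.1⟩⟩
    rintro ⟨x, hx, hxt⟩
    by_contra hv
    obtain ⟨c, hct, hcE, y, hyt, hyE, hcy⟩ := ht.exists_adj (s := (E ch).toFinset) hxt
      (by simpa using hx) hw (by simpa using hwF.2.2)
    rw [List.mem_toFinset] at hcE hyE
    refine out_ch hs ho c hcE y ?_ hcy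
    rw [List.mem_cons, not_or]
    exact ⟨fun h => hv (h ▸ hyt), hyE⟩

theorem mem_J_of_conn {G : SimpleGraph V} {t : Finset V} (ht : Conn G t) (F : RF V) (z : V)
    (hs : Sep G z F) (ho : Out G z F) (hz : z ∈ t) (hzF : z ∉ E F)
    (hsub : ∀ x ∈ t, x ∈ z :: E F) : ∃ f ∈ J F, t = insert z f := by
  refine ⟨t ∩ (E F).toFinset, mem_J_of_PC t F (PC_of_conn ht F z hs ho ⟨z, hz, hzF⟩), ?_⟩
  ext x
  simp only [Finset.mem_insert, Finset.mem_inter, List.mem_toFinset]
  constructor
  · intro hx
    rcases List.mem_cons.mp (hsub x hx) with h | h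
    · exact Or.inl h
    · exact Or.inr ⟨hx, h⟩
  · rintro (h | h)
    · exact h ▸ hz
    · exact h.1

theorem mem_Tb_of_conn {G : SimpleGraph V} {t : Finset V} (ht : Conn G t) (F : RF V) :
    ∀ z, Sep G z F → Out G z F → (E F).Nodup → (∀ x ∈ t, x ∈ E F) → t ∈ Tb F := by
  induction F with
  | nil =>
    intro z _ _ _ h
    obtain ⟨x, hx⟩ := ht.nonempty
    have := h x hx
    simp [E] at this
  | cons v ch sib ih1 ih2 =>
    intro z hs ho hnd hsub
    obtain ⟨h1, h2, h3, h4⟩ := nodup_cons hnd
    have hE : ∀ x, x ∈ E (cons v ch sib) ↔ x ∈ E sib ∨ x = v ∨ x ∈ E ch := by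
      intro x; simp [E]
    simp only [Tb, Finset.mem_union, Finset.mem_image]
    -- either t ⊆ E sib or t ⊆ v :: E ch
    by_cases hm : ∃ x ∈ t, x ∈ E sib
    · right
      apply ih2 z hs.2.2.2 (out_sib hs ho) h1
      intro y hy
      by_contra hyn
      obtain ⟨x, hx, hxs⟩ := hm
      obtain ⟨c, hct, hcE, d, hdt, hdE, hcd⟩ := ht.exists_adj (s := (E sib).toFinset) hx
        (by simpa using hxs) hy (by simpa using hyn)
      rw [List.mem_toFinset] at hcE hdE
      have hd := (hE d).mp (hsub d hdt)
      refine hs.2.1 d ?_ c hcE hcd.symm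
      rcases hd with h | h | h
      · exact absurd h hdE
      · rw [h]; exact List.mem_cons_self
      · exact List.mem_cons_of_mem _ h
    · push Not at hm
      left
      by_cases hv : v ∈ t
      · left
        obtain ⟨f, hf, htf⟩ := mem_J_of_conn ht ch v hs.2.2.1 (out_ch hs ho) hv h3 (by
          intro x hx
          rcases (hE x).mp (hsub x hx) with h | h | h
          · exact absurd h (hm x hx)
          · rw [h]; exact List.mem_cons_self
          · exact List.mem_cons_of_mem _ h)
        exact ⟨f, hf, htf.symm⟩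
      · right
        apply ih1 v hs.2.2.1 (out_ch hs ho) h2
        intro x hx
        rcases (hE x).mp (hsub x hx) with h | h | h
        · exact absurd h (hm x hx)
        · exact absurd (h ▸ hx) hv
        · exact h

theorem conn_of_J {G : SimpleGraph V} (F : RF V) : ∀ z, Rep G z F → ∀ f ∈ J F,
    Conn G (insert z f) := by
  induction F with
  | nil =>
    intro z _ f hf
    simp only [J, Finset.mem_singleton] at hf
    rw [hf]
    exact conn_singleton G z
  | cons v ch sib ih1 ih2 =>
    intro z hr f hf
    obtain ⟨r1, r2, r3⟩ := hr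
    rw [mem_J_cons] at hf
    obtain ⟨f1, f2, hf1, hf2, rfl⟩ := hf
    have c2 := ih2 z r3 f2 hf2
    rcases hf1 with rfl | ⟨f3, hf3, rfl⟩
    · simpa using c2
    · have c1 := ih1 v r2 f3 hf3
      have := c2.union_adj c1 (Finset.mem_insert_self z f2) (Finset.mem_insert_self v f3) r1
      have e : insert z f2 ∪ insert v f3 = insert z (insert v f3 ∪ f2) := by
        ext x; simp only [Finset.mem_union, Finset.mem_insert]; tauto
      rwa [e] at this

theorem conn_of_Tb {G : SimpleGraph V} (F : RF V) : ∀ z, Rep G z F → ∀ t ∈ Tb F,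
    Conn G t := by
  induction F with
  | nil => intro z _ t ht; simp [Tb] at ht
  | cons v ch sib ih1 ih2 =>
    intro z hr t ht
    obtain ⟨r1, r2, r3⟩ := hr
    simp only [Tb, Finset.mem_union, Finset.mem_image] at ht
    rcases ht with (⟨f, hf, rfl⟩ | ht) | ht
    · exact conn_of_J ch v r2 f hf
    · exact ih1 v r2 t ht
    · exact ih2 z r3 t ht

end

variable {V : Type*} [Fintype V] [DecidableEq V]

open Classical in
/-- A rooted tree structure on all of `V` gives a facet-Hamiltonian cycle. -/
theorem facetHamiltonian_of_forest {G : SimpleGraph V} (h3 : 3 ≤ Fintype.card V) (F : RF V) (r : V)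
    (hnd : (r :: E F).Nodup) (hall : ∀ v, v ∈ r :: E F) (hsep : Sep G r F) (hrep : Rep G r F) :
    FacetHamiltonian G := by
  have hnd' := List.nodup_cons.mp hnd
  have hfull : Full (r :: K F true) :=
    Full.perm ⟨hnd, hall⟩ (List.Perm.cons r (K_perm F true).symm)
  have hout : Out G r F := fun x _ y hy => absurd (hall y) hy
  -- univ is connected
  have huniv : insert r (E F).toFinset = Finset.univ := by
    rw [Finset.eq_univ_iff_forall]
    intro v
    rcases List.mem_cons.mp (hall v) with h | h
    · simp [h]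
    · simp [h]
  have hG : G.Connected := by
    have := conn_of_J F r hrep _ (full_mem_J F)
    rw [huniv] at this
    unfold Conn at this
    rw [Finset.coe_univ] at this
    exact (SimpleGraph.induceUnivIso G).connected_iff.mp this
  obtain ⟨-, hw⟩ := closed_walk G F r hsep
  obtain ⟨L, f, h1, h2, h3', h4, h5, h6⟩ := hw hfull
  refine facetHamiltonian_of_walk hG h3 f L (by rw [h2, h3']) h4 h5 ?_ ?_
  · intro t ht
    apply h6 t _ ht
    by_cases hr : r ∈ t
    · right
      exact mem_J_of_conn ht.2.2 F r hsep hout hr hnd'.1 (fun x _ => hall x)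
    · left
      apply mem_Tb_of_conn ht.2.2 F r hsep hout hnd'.2
      intro x hx
      rcases List.mem_cons.mp (hall x) with h | h
      · exact absurd (h ▸ hx) hr
      · exact h
  · refine h1.trans ?_
    -- number of tubes
    have hA : (((J F).image (insert r)).erase Finset.univ).card = M F := by
      rw [Finset.card_erase_of_mem, Finset.card_image_of_injOn, card_J F hnd'.2]
      · rfl
      · intro a ha b hb hab
        have ha' : r ∉ a := fun hv => hnd'.1 (J_subset F a (by simpa using ha) r hv)
        have hb' : r ∉ b := fun hv => hnd'.1 (J_subset F b (by simpa using hb) r hv)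
        calc a = (insert r a).erase r := (Finset.erase_insert ha').symm
          _ = (insert r b).erase r := by rw [hab]
          _ = b := Finset.erase_insert hb'
      · exact Finset.mem_image.mpr ⟨_, full_mem_J F, huniv⟩
    have hdisj : Disjoint (((J F).image (insert r)).erase Finset.univ) (Tb F) := by
      rw [Finset.disjoint_left]
      intro a ha ha'
      obtain ⟨b, _, rfl⟩ := Finset.mem_image.mp (Finset.mem_of_mem_erase ha)
      exact hnd'.1 ((Tb_subset F _ ha').1 r (Finset.mem_insert_self _ _))
    rw [← hA, ← card_Tb F hnd'.2, ← Finset.card_union_of_disjoint hdisj]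
    apply Finset.card_le_card
    intro t ht
    rw [Finset.mem_filter]
    refine ⟨Finset.mem_univ _, ?_⟩
    rcases Finset.mem_union.mp ht with h | h
    · obtain ⟨hne, h⟩ := Finset.mem_erase.mp h
      obtain ⟨b, hb, rfl⟩ := Finset.mem_image.mp h
      exact ⟨⟨r, by simp⟩, hne, conn_of_J F r hrep b hb⟩
    · obtain ⟨hs, hne⟩ := Tb_subset F t h
      refine ⟨hne, ?_, conn_of_Tb F r hrep t h⟩
      intro hu
      exact hnd'.1 (hs r (hu ▸ Finset.mem_univ r))

end Pool.Agent.H56.FH
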