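import Pool.Agent.H56.FH.Basic

/-!
A closed walk of flips that covers every tube and has at most as many steps as there are tubes
is a facet-Hamiltonian cycle.
-/

namespace Pool.Agent.H56.FH

variable {V : Type*} [Fintype V] [DecidableEq V]

theorem exists_birth (P : ℕ → Prop) {a b : ℕ} (hab : a ≤ b) (ha : ¬ P a) (hb : P b) :
    ∃ i, a ≤ i ∧ i < b ∧ ¬ P i ∧ P (i + 1) := by
  induction b, hab using Nat.le_induction with
  | base => exact absurd hb ha
  | succ n hn ih =>
    by_cases h : P n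
    · obtain ⟨i, h1, h2, h3⟩ := ih h
      exact ⟨i, h1, by omega, h3⟩
    · exact ⟨n, hn, by omega, h, hb⟩

/-- a predicate on a cycle with exactly one birth is a block -/
theorem block_of_unique_birth {N : ℕ} [NeZero N] (P : ZMod N → Prop)
    (h1 : ∃ i, ¬ P i ∧ P (i + 1)) (h2 : ∀ i j, ¬ P i → P (i + 1) → ¬ P j → P (j + 1) → i = j) :
    ∃ a : ZMod N, ∃ k : ℕ, ∀ i, P i ↔ ∃ j : ℕ, j ≤ k ∧ i = a + (j : ZMod N) := by
  obtain ⟨i0, hi0, hi1⟩ := h1
  classical
  have hN : 0 < N := Nat.pos_of_ne_zero (NeZero.ne N)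
  have hex : ∃ j : ℕ, ¬ P (i0 + 1 + (j : ZMod N)) := by
    refine ⟨N - 1, ?_⟩
    have : (i0 + 1 + ((N - 1 : ℕ) : ZMod N)) = i0 := by
      rw [Nat.cast_sub (by omega)]
      simp
    rw [this]
    exact hi0
  obtain ⟨k1, hk1, hmin⟩ : ∃ k1 : ℕ, ¬ P (i0 + 1 + (k1 : ZMod N)) ∧
      ∀ j < k1, P (i0 + 1 + (j : ZMod N)) := by
    refine ⟨Nat.find hex, Nat.find_spec hex, ?_⟩
    intro j hj
    exact not_not.mp (Nat.find_min hex hj)
  have hk1pos : k1 ≠ 0 := by
    rintro rfl
    apply hk1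
    simpa using hi1
  have hk1N : k1 ≤ N - 1 := by
    by_contra hlt
    push Not at hlt
    have := hmin (N - 1) (by omega)
    have e : (i0 + 1 + ((N - 1 : ℕ) : ZMod N)) = i0 := by
      rw [Nat.cast_sub (by omega)]
      simp
    rw [e] at this
    exact hi0 this
  refine ⟨i0 + 1, k1 - 1, ?_⟩
  intro x
  constructor
  · intro hx
    have hxe : i0 + 1 + (((x - (i0 + 1)).val : ℕ) : ZMod N) = x := by
      rw [ZMod.natCast_zmod_val]; ring
    refine ⟨(x - (i0 + 1)).val, ?_, hxe.symm⟩
    by_contra hlt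
    push Not at hlt
    have hge : k1 ≤ (x - (i0 + 1)).val := by omega
    have hvl := ZMod.val_lt (x - (i0 + 1))
    obtain ⟨j, hj1, hj2, hj3, hj4⟩ := exists_birth (fun j => P (i0 + 1 + (j : ZMod N))) hge hk1
      (by simpa [hxe] using hx)
    have he := h2 (i0 + 1 + (j : ZMod N)) i0 hj3 (by
      have : i0 + 1 + ((j + 1 : ℕ) : ZMod N) = i0 + 1 + (j : ZMod N) + 1 := by push_cast; ring
      rw [← this]; exact hj4) hi0 hi1
    have h0 : ((j + 1 : ℕ) : ZMod N) = 0 := by
      push_cast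
      have : i0 + 1 + (j : ZMod N) - i0 = 0 := by rw [he]; ring
      calc (j : ZMod N) + 1 = i0 + 1 + (j : ZMod N) - i0 := by ring
        _ = 0 := this
    rw [ZMod.natCast_eq_zero_iff] at h0
    have := Nat.le_of_dvd (by omega) h0
    omega
  · rintro ⟨j, hj, rfl⟩
    exact hmin j (by omega)

open Classical in
theorem facetHamiltonian_of_walk {G : SimpleGraph V} (hG : G.Connected)
    (h3 : 3 ≤ Fintype.card V) (f : ℕ → Finset (Finset V)) (L : ℕ) (h0 : f L = f 0)
    (hmax : ∀ i, i ≤ L → IsMaxTubing G (f i))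
    (hflip : ∀ i, i < L → ShareAllButOne (f i) (f (i + 1)))
    (hcov : ∀ t, IsTube G t → ∃ i, i ≤ L ∧ t ∈ f i)
    (hcount : L ≤ (Finset.univ.filter (fun t : Finset V => IsTube G t)).card) :
    FacetHamiltonian G := by
  set T : Finset (Finset V) := Finset.univ.filter (fun t : Finset V => IsTube G t) with hT
  have hTmem : ∀ t, t ∈ T ↔ IsTube G t := by intro t; simp [hT]
  -- births exist
  have hborn : ∀ t, IsTube G t → ∃ i, i < L ∧ t ∉ f i ∧ t ∈ f (i + 1) := by
    intro t ht
    obtain ⟨i1, hi1, h1⟩ := hcov t ht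
    obtain ⟨r, hr, hrt⟩ := exists_enemy hG ht
    obtain ⟨i2, hi2, h2⟩ := hcov r hr
    have hd : t ∉ f i2 := fun h => hrt ((hmax i2 hi2).1.2 r h2 t h)
    rcases le_or_gt i2 i1 with hle | hgt
    · obtain ⟨i, ha, hb, hc, hd'⟩ := exists_birth (fun i => t ∈ f i) hle hd h1
      exact ⟨i, by omega, hc, hd'⟩
    · by_cases h00 : t ∈ f 0
      · obtain ⟨i, ha, hb, hc, hd'⟩ := exists_birth (fun i => t ∈ f i) hi2 hd (by
          show t ∈ f L
          rw [h0]; exact h00)
        exact ⟨i, hb, hc, hd'⟩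
      · obtain ⟨i, ha, hb, hc, hd'⟩ := exists_birth (fun i => t ∈ f i) (Nat.zero_le i1) h00 h1
        exact ⟨i, by omega, hc, hd'⟩
  have hbu : ∀ i, i < L → ∀ s t, s ∉ f i → s ∈ f (i + 1) → t ∉ f i → t ∈ f (i + 1) → s = t := by
    intro i hi s t hs1 hs2 ht1 ht2
    obtain ⟨u, hu⟩ := Finset.card_eq_one.mp (hflip i hi).2
    have e1 : s ∈ f (i + 1) \ f i := Finset.mem_sdiff.mpr ⟨hs2, hs1⟩
    have e2 : t ∈ f (i + 1) \ f i := Finset.mem_sdiff.mpr ⟨ht2, ht1⟩
    rw [hu, Finset.mem_singleton] at e1 e2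
    rw [e1, e2]
  choose! g hg1 hg2 hg3 using hborn
  have hginj : ∀ s ∈ T, ∀ t ∈ T, g s = g t → s = t := by
    intro s hs t ht he
    rw [hTmem] at hs ht
    exact hbu (g s) (hg1 s hs) s t (hg2 s hs) (hg3 s hs) (he ▸ hg2 t ht) (he ▸ hg3 t ht)
  have himg : T.image g ⊆ Finset.range L := by
    intro i hi
    obtain ⟨t, ht, rfl⟩ := Finset.mem_image.mp hi
    exact Finset.mem_range.mpr (hg1 t ((hTmem t).mp ht))
  have hcard : (T.image g).card = T.card := Finset.card_image_of_injOn (fun s hs t ht he =>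
    hginj s hs t ht he)
  have himg2 : T.image g = Finset.range L := by
    apply Finset.eq_of_subset_of_card_le himg
    rw [hcard, Finset.card_range]
    exact hcount
  have hLT : L = T.card := by
    rw [← hcard, himg2, Finset.card_range]
  have huniq : ∀ t, IsTube G t → ∀ i j, i < L → j < L → t ∉ f i → t ∈ f (i + 1) → t ∉ f j →
      t ∈ f (j + 1) → i = j := by
    have key : ∀ t, IsTube G t → ∀ i, i < L → t ∉ f i → t ∈ f (i + 1) → i = g t := by
      intro t ht i hi h1 h2
      have : i ∈ T.image g := by rw [himg2]; exact Finset.mem_range.mpr hi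
      obtain ⟨s, hs, rfl⟩ := Finset.mem_image.mp this
      rw [hTmem] at hs
      have := hbu (g s) hi s t (hg2 s hs) (hg3 s hs) h1 h2
      rw [this]
    intro t ht i j hi hj h1 h2 h3 h4
    rw [key t ht i hi h1 h2, key t ht j hj h3 h4]
  -- L ≥ 3
  have hL3 : 3 ≤ L := by
    rw [hLT]
    refine h3.trans ?_
    rw [← Finset.card_univ, ← Finset.card_image_of_injective (Finset.univ : Finset V)
      (Finset.singleton_injective)]
    apply Finset.card_le_card
    intro s hs
    obtain ⟨x, -, rfl⟩ := Finset.mem_image.mp hs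
    rw [hTmem]
    refine ⟨⟨x, by simp⟩, ?_, conn_singleton G x⟩
    intro h
    have := congrArg Finset.card h
    rw [Finset.card_singleton, Finset.card_univ] at this
    omega
  haveI : NeZero L := ⟨by omega⟩
  set C : ZMod L → Finset (Finset V) := fun i => f i.val with hC
  have hCs : ∀ i : ZMod L, C (i + 1) = f (i.val + 1) := by
    intro i
    have hv := ZMod.val_lt i
    rcases Nat.lt_or_ge (i.val + 1) L with h | h
    · have : (i + 1).val = i.val + 1 := by
        haveI : Fact (1 < L) := ⟨by omega⟩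
        rw [ZMod.val_add_of_lt]
        · rw [ZMod.val_one]
        · rw [ZMod.val_one]; exact h
      simp only [hC, this]
    · have hi : i.val + 1 = L := by omega
      have : (i + 1 : ZMod L) = 0 := by
        have e : ((i.val + 1 : ℕ) : ZMod L) = i + 1 := by
          push_cast
          rw [ZMod.natCast_zmod_val]
        rw [← e, hi]
        simp
      simp only [hC, this, ZMod.val_zero, hi, h0]
  have hCmax : ∀ i, IsMaxTubing G (C i) := fun i => hmax _ (ZMod.val_lt i).le
  have hCflip : ∀ i, ShareAllButOne (C i) (C (i + 1)) := by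
    intro i
    rw [hCs]
    exact hflip _ (ZMod.val_lt i)
  have hCbirth : ∀ t, IsTube G t → ∃ i : ZMod L, ¬ (t ∈ C i) ∧ t ∈ C (i + 1) := by
    intro t ht
    have hv : ((g t : ℕ) : ZMod L).val = g t := ZMod.val_natCast_of_lt (hg1 t ht)
    refine ⟨((g t : ℕ) : ZMod L), ?_, ?_⟩
    · simp only [hC, hv]; exact hg2 t ht
    · rw [hCs, hv]; exact hg3 t ht
  have hCuniq : ∀ t, IsTube G t → ∀ i j : ZMod L, ¬ (t ∈ C i) → t ∈ C (i + 1) → ¬ (t ∈ C j) →
      t ∈ C (j + 1) → i = j := by
    intro t ht i j h1 h2 h3 h4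
    rw [hCs] at h2 h4
    have := huniq t ht i.val j.val (ZMod.val_lt i) (ZMod.val_lt j) h1 h2 h3 h4
    exact ZMod.val_injective L this
  have hCcov : ∀ t, IsTube G t → ∃ i, t ∈ C i := by
    intro t ht
    obtain ⟨i, -, h⟩ := hCbirth t ht
    exact ⟨_, h⟩
  -- injectivity
  have hinj : Function.Injective C := by
    intro x y hxy
    by_contra hne
    -- y = x + d
    obtain ⟨d, hd0, hdL, hd⟩ : ∃ d : ℕ, 0 < d ∧ d < L ∧ y = x + (d : ZMod L) := by
      refine ⟨(y - x).val, ?_, ZMod.val_lt _, ?_⟩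
      · rw [Nat.pos_iff_ne_zero]
        intro h
        rw [ZMod.val_eq_zero, sub_eq_zero] at h
        exact hne h.symm
      · rw [ZMod.natCast_zmod_val]; ring
    have hcast : ∀ j : ℕ, x + ((j + 1 : ℕ) : ZMod L) = x + (j : ZMod L) + 1 := by
      intro j; push_cast; ring
    have hxL : x + ((L : ℕ) : ZMod L) = x := by simp
    have dich : ∀ t, IsTube G t → t ∈ C x →
        (∀ j : ℕ, j ≤ d → t ∈ C (x + (j : ZMod L))) ∨
        (∀ j : ℕ, d ≤ j → j ≤ L → t ∈ C (x + (j : ZMod L))) := by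
      intro t ht htx
      by_contra hcon
      push Not at hcon
      obtain ⟨⟨j1, hj1, hn1⟩, ⟨j2, hj2, hj2L, hn2⟩⟩ := hcon
      have htd : t ∈ C (x + (d : ZMod L)) := by rw [← hd, ← hxy]; exact htx
      obtain ⟨i1, a1, b1, c1, d1⟩ := exists_birth (fun j => t ∈ C (x + (j : ZMod L))) hj1 hn1 htd
      obtain ⟨i2, a2, b2, c2, d2⟩ := exists_birth (fun j => t ∈ C (x + (j : ZMod L))) hj2L hn2
        (by show t ∈ C (x + ((L : ℕ) : ZMod L)); rw [hxL]; exact htx)
      have he := hCuniq t ht (x + (i1 : ZMod L)) (x + (i2 : ZMod L)) c1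
        (by rw [← hcast]; exact d1) c2 (by rw [← hcast]; exact d2)
      have he2 : (i1 : ZMod L) = (i2 : ZMod L) := add_left_cancel he
      rw [ZMod.natCast_eq_natCast_iff'] at he2
      rw [Nat.mod_eq_of_lt (by omega), Nat.mod_eq_of_lt (by omega)] at he2
      omega
    -- element b killed at step x
    obtain ⟨b, hb⟩ := Finset.card_eq_one.mp (hCflip x).1
    have hb' : b ∈ C x \ C (x + 1) := by rw [hb]; simp
    obtain ⟨hb1, hb2⟩ := Finset.mem_sdiff.mp hb'
    obtain ⟨a, ha⟩ := Finset.card_eq_one.mp (hCflip y).1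
    have ha' : a ∈ C y \ C (y + 1) := by rw [ha]; simp
    obtain ⟨ha1, ha2⟩ := Finset.mem_sdiff.mp ha'
    have hax : a ∈ C x := by rw [hxy]; exact ha1
    have htb := (hCmax x).1.1 b hb1
    have hta := (hCmax x).1.1 a hax
    have hB : ∀ j : ℕ, d ≤ j → j ≤ L → b ∈ C (x + (j : ZMod L)) := by
      rcases dich b htb hb1 with h | h
      · exfalso
        apply hb2
        have := h 1 (by omega)
        simpa using this
      · exact h
    have hA : ∀ j : ℕ, j ≤ d → a ∈ C (x + (j : ZMod L)) := by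
      rcases dich a hta hax with h | h
      · exact h
      · exfalso
        apply ha2
        have := h (d + 1) (by omega) (by omega)
        rw [hcast, ← hd] at this
        exact this
    have hab : a ≠ b := by
      rintro rfl
      apply hb2
      have := hA 1 (by omega)
      simpa using this
    obtain ⟨r, hr, hra, hrb⟩ := common_enemy hG hta htb hab ((hCmax x).1.2 a hax b hb1)
    obtain ⟨z, hz⟩ := hCcov r hr
    have hze : z = x + (((z - x).val : ℕ) : ZMod L) := by
      rw [ZMod.natCast_zmod_val]; ring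
    have hzl := ZMod.val_lt (z - x)
    rcases le_total (z - x).val d with h | h
    · have := hA _ h
      rw [← hze] at this
      exact hra ((hCmax z).1.2 r hz a this)
    · have := hB _ h hzl.le
      rw [← hze] at this
      exact hrb ((hCmax z).1.2 r hz b this)
  refine ⟨L, hL3, C, hinj, hCmax, hCflip, ?_⟩
  intro t ht
  exact block_of_unique_birth (fun i => t ∈ C i) (hCbirth t ht) (hCuniq t ht)

end Pool.Agent.H56.FH
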