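import Pool.Agent.H56.FH.Forest

/-!
The event: the forest above `z` moves below `z`; all sets with a top in the forest are met.
-/

namespace Pool.Agent.H56.FH

namespace RF

variable {V : Type*}

/-- the word of the forest in the given state -/
def K (F : RF V) (par : Bool) : List V := if par then O1 F ++ O2 F else E F

/-- cost of the event: number of sets with a top in the forest -/
def ev : RF V → ℕ
  | nil => 0
  | cons _ ch sib => ev sib + ev ch + (M ch + 1)

/-- no edges except those of the rooted forest below `z` -/
def Sep (G : SimpleGraph V) : V → RF V → Prop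
  | _, nil => True
  | z, cons v ch sib => (∀ x ∈ E ch, ¬ G.Adj z x) ∧ (∀ x ∈ v :: E ch, ∀ y ∈ E sib, ¬ G.Adj x y) ∧
      Sep G v ch ∧ Sep G z sib

/-- the edges of the rooted forest below `z` are present -/
def Rep (G : SimpleGraph V) : V → RF V → Prop
  | _, nil => True
  | z, cons v ch sib => G.Adj z v ∧ Rep G v ch ∧ Rep G z sib

variable [DecidableEq V]

theorem K_perm (F : RF V) (par : Bool) : (K F par).Perm (E F) := by
  unfold K
  split
  · exact O_perm F
  · exact List.Perm.refl _

theorem O1_subset (F : RF V) : ∀ x ∈ O1 F, x ∈ E F := by
  intro x hx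
  exact (O_perm F).mem_iff.mp (List.mem_append_left _ hx)

theorem mem_K {F : RF V} {par : Bool} {x : V} : x ∈ K F par ↔ x ∈ E F :=
  (K_perm F par).mem_iff

/-- the sets with a top in the forest -/
def Tb : RF V → Finset (Finset V)
  | nil => ∅
  | cons v ch sib => (J ch).image (insert v) ∪ Tb ch ∪ Tb sib

theorem J_subset (F : RF V) : ∀ f ∈ J F, ∀ x ∈ f, x ∈ E F := by
  induction F with
  | nil =>
    intro f hf x hx
    simp only [J, Finset.mem_singleton] at hf
    rw [hf] at hx
    simp at hx
  | cons v ch sib ih1 ih2 =>
    intro f hf x hx
    rw [mem_J_cons] at hf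
    obtain ⟨f1, f2, hf1, hf2, rfl⟩ := hf
    simp only [E, List.mem_append, List.mem_cons]
    rcases Finset.mem_union.mp hx with h | h
    · rcases hf1 with rfl | ⟨f3, hf3, rfl⟩
      · simp at h
      · rcases Finset.mem_insert.mp h with h | h
        · exact Or.inr (Or.inl h)
        · exact Or.inr (Or.inr (ih1 f3 hf3 x h))
    · exact Or.inl (ih2 f2 hf2 x h)

end RF

open RF

variable {V : Type*} [Fintype V] [DecidableEq V]

theorem pathJ_par (G : SimpleGraph V) (F : RF V) (pre post : List V) (par : Bool) :
    Reach G (pre ++ (K F (!par) ++ post)) (pre ++ (K F par ++ post)) (cost F)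
      {t | ∃ f ∈ J F, LiveAt G pre f t} := by
  rcases par with _ | _
  · exact (pathJ G F pre post).symm
  · exact pathJ G F pre post

theorem pathEV (G : SimpleGraph V) (F : RF V) : ∀ (z : V) (pre post : List V) (par : Bool),
    Sep G z F → (∀ x ∈ E F, ∀ y ∈ pre, ¬ G.Adj y x) →
    Reach G (pre ++ (z :: (E F ++ post))) (pre ++ (K F par ++ (z :: post))) (ev F)
      {t | t ∈ Tb F} := by
  induction F with
  | nil =>
    intro z pre post par _ _
    have hK : K (nil : RF V) par = [] := by
      unfold K; split <;> rfl
    rw [hK]
    simp only [E, List.nil_append]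
    refine (Reach.refl G _).mono (le_refl 0) ?_
    intro t ht
    simp [Tb] at ht
  | cons v ch sib ih1 ih2 =>
    intro z pre post par hsep hpre
    obtain ⟨hzch, hvs, hsch, hssib⟩ := hsep
    set σ := par && !(odd ch) with hσ
    set p := pre ++ K sib σ with hp
    have hE : ∀ x, x ∈ E (cons v ch sib) ↔ x ∈ E sib ∨ x = v ∨ x ∈ E ch := by
      intro x; simp [E]
    -- p is not adjacent to v :: E ch
    have hpch : ∀ x ∈ v :: E ch, ∀ y ∈ p, ¬ G.Adj y x := by
      intro x hx y hy hadj
      rw [hp, List.mem_append] at hy
      rcases hy with hy | hy
      · refine hpre x ?_ y hy hadj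
        rw [hE]
        rcases List.mem_cons.mp hx with h | h
        · exact Or.inr (Or.inl h)
        · exact Or.inr (Or.inr h)
      · exact hvs x hx y (mem_K.mp hy) hadj.symm
    have stepA := ih2 z pre (v :: (E ch ++ post)) σ hssib (by
      intro x hx y hy
      exact hpre x ((hE x).mpr (Or.inl hx)) y hy)
    have stepB := ih1 v (p ++ [z]) post (!par) hsch (by
      intro x hx y hy
      rw [List.mem_append, List.mem_singleton] at hy
      rcases hy with hy | hy
      · exact hpch x (List.mem_cons_of_mem _ hx) y hy
      · subst hy
        exact hzch x hx)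
    have stepC := Reach.exchange (G := G) p [z] (K ch (!par)) (v :: post) (by
        intro b hb x hx
        exact hpch b (List.mem_cons_of_mem _ (mem_K.mp hb)) x hx) (by
        intro b hb x hx
        rw [List.mem_singleton] at hx
        subst hx
        exact hzch b (mem_K.mp hb))
    have stepD := Reach.swap G (p ++ K ch (!par)) post z v
    have stepE := (Reach.cross G p (z :: post) v (K ch (!par))).symm
    have stepF := pathJ_par G ch (p ++ [v]) (z :: post) par
    -- final rearrangement
    have stepG : Reach G (p ++ [v] ++ (K ch par ++ (z :: post)))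
        (pre ++ (K (cons v ch sib) par ++ (z :: post))) 0 ∅ := by
      rcases par with _ | _
      · have : p ++ [v] ++ (K ch false ++ (z :: post)) =
            pre ++ (K (cons v ch sib) false ++ (z :: post)) := by
          simp [hp, hσ, K, E]
        rw [this]
        exact (Reach.refl G _).mono (le_refl 0) (Set.empty_subset _)
      · have hex := Reach.exchange (G := G) pre (K sib σ) (v :: O1 ch) (O2 ch ++ (z :: post)) (by
            intro b hb x hx
            refine hpch b ?_ x (by rw [hp]; exact List.mem_append_left _ hx)
            rcases List.mem_cons.mp hb with h | h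
            · rw [h]; exact List.mem_cons_self
            · exact List.mem_cons_of_mem _ (O1_subset ch b h)) (by
            intro b hb x hx
            refine hpch b ?_ x (by rw [hp]; exact List.mem_append_right _ hx)
            rcases List.mem_cons.mp hb with h | h
            · rw [h]; exact List.mem_cons_self
            · exact List.mem_cons_of_mem _ (O1_subset ch b h))
        have e1 : p ++ [v] ++ (K ch true ++ (z :: post)) =
            pre ++ (K sib σ ++ (v :: O1 ch ++ (O2 ch ++ (z :: post)))) := by
          simp [hp, K]
        have e2 : pre ++ (K (cons v ch sib) true ++ (z :: post)) =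
            pre ++ (v :: O1 ch ++ (K sib σ ++ (O2 ch ++ (z :: post)))) := by
          rcases hoc : odd ch with _ | _
          · simp [hσ, hoc, K, O1, O2]
          · simp [hσ, hoc, K, O1, O2]
        rw [e1, e2]
        exact hex
    have hA : Reach G (pre ++ (z :: (E (cons v ch sib) ++ post)))
        (p ++ [z] ++ (v :: (E ch ++ post))) (ev sib) {t | t ∈ Tb sib} := by
      have e1 : pre ++ (z :: (E (cons v ch sib) ++ post)) =
          pre ++ (z :: (E sib ++ (v :: (E ch ++ post)))) := by simp [E]
      have e2 : p ++ [z] ++ (v :: (E ch ++ post)) = pre ++ (K sib σ ++ (z :: (v :: (E ch ++ post)))) := by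
        simp [hp]
      rw [e1, e2]
      exact stepA
    have hB := hA.trans stepB
    have hC := hB.trans (w'' := p ++ (K ch (!par) ++ ([z] ++ (v :: post)))) (by
      simpa using stepC)
    have hD := hC.trans (w'' := p ++ (K ch (!par) ++ (v :: z :: post))) (by
      simpa using stepD)
    have hE' := hD.trans stepE
    have hF := hE'.trans (w'' := p ++ [v] ++ (K ch par ++ (z :: post))) (by
      simpa using stepF)
    have hG := hF.trans stepG
    refine hG.mono ?_ ?_
    · have h1 := cost_add_length ch
      have h2 := (K_perm ch (!par)).length_eq
      simp only [ev]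
      omega
    · intro t ht
      simp only [Tb, Set.mem_ofPred_eq, Finset.mem_union, Finset.mem_image] at ht
      rcases ht with (⟨f, hf, rfl⟩ | ht) | ht
      · left; right
        refine ⟨f, hf, ?_, ?_⟩
        · intro a ha
          rcases Finset.mem_insert.mp ha with h | h
          · left; rw [h]; simp
          · exact Or.inr h
        · intro b hb hbt c hc
          rw [Finset.mem_insert, not_or] at hbt
          have hbp : b ∈ p := by
            rcases hb with hb | hb
            · rw [List.mem_append, List.mem_singleton] at hb
              rcases hb with hb | hb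
              · exact hb
              · exact absurd hb hbt.1
            · exact absurd hb hbt.2
          have hc' : c ∈ v :: E ch := by
            rcases Finset.mem_insert.mp hc with h | h
            · rw [h]; exact List.mem_cons_self
            · exact List.mem_cons_of_mem _ (J_subset ch f hf c h)
          exact fun hadj => hpch c hc' b hbp hadj.symm
      · left; left; left; left; left; right
        exact ht
      · left; left; left; left; left; left
        exact ht

/-- the closed walk -/
theorem closed_walk (G : SimpleGraph V) (F : RF V) (r : V) (hsep : Sep G r F) :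
    Reach G (r :: K F true) (r :: K F true) (M F + ev F)
      {t | t ∈ Tb F ∨ ∃ f ∈ J F, t = insert r f} := by
  have s1 := (pathJ G F [r] []).symm
  have s2 := pathEV G F r [] [] true hsep (by simp)
  have s3 := (Reach.cross G [] [] r (K F true)).symm
  have h1 : Reach G (r :: K F true) (r :: E F) (cost F) {t | ∃ f ∈ J F, t = insert r f} := by
    refine (by simpa [K] using s1 : Reach G (r :: K F true) (r :: E F) (cost F)
      {t | ∃ f ∈ J F, LiveAt G [r] f t}).mono (le_refl _) ?_
    rintro t ⟨f, hf, rfl⟩
    refine ⟨f, hf, ?_, ?_⟩
    · intro a ha
      rcases Finset.mem_insert.mp ha with h | h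
      · left; simp [h]
      · exact Or.inr h
    · intro b hb hbt c hc
      exfalso
      apply hbt
      rw [Finset.mem_insert]
      simpa using hb
  have h2 : Reach G (r :: E F) (K F true ++ [r]) (ev F) {t | t ∈ Tb F} := by
    simpa using s2
  have h3 : Reach G (K F true ++ [r]) (r :: K F true) (K F true).length ∅ := by
    simpa using s3
  refine ((h1.trans h2).trans h3).mono ?_ ?_
  · have h4 := cost_add_length F
    have h5 := (K_perm F true).length_eq
    omega
  · rintro t (ht | ht)
    · left; right; exact ht
    · left; left; exact ht

end Pool.Agent.H56.FH
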