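import Pool.Agent.H56.FH.Words

/-!
Rooted ordered forests and the walk through all their parent-closed subsets.
-/

namespace Pool.Agent.H56.FH

/-- rooted ordered forests: empty, or a first tree (root `v` with forest `ch` of children)
followed by the remaining trees `sib` -/
inductive RF (V : Type*)
  | nil : RF V
  | cons (v : V) (ch sib : RF V) : RF V

namespace RF

variable {V : Type*}

/-- even word -/
def E : RF V → List V
  | nil => []
  | cons v ch sib => E sib ++ v :: E ch

/-- parity of the number of parent-closed sets -/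
def odd : RF V → Bool
  | nil => true
  | cons _ ch sib => !(odd ch) && odd sib

/-- odd word, part below the follower -/
def O1 : RF V → List V
  | nil => []
  | cons v ch sib => if odd ch then v :: O1 ch else v :: (O1 ch ++ O1 sib)

/-- odd word, part above the follower -/
def O2 : RF V → List V
  | nil => []
  | cons _ ch sib => if odd ch then E sib ++ O2 ch else O2 sib ++ O2 ch

/-- number of nonempty parent-closed sets -/
def M : RF V → ℕ
  | nil => 0
  | cons _ ch sib => (M ch + 1) + (M ch + 2) * M sib

/-- cost of the path -/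
def cost : RF V → ℕ
  | nil => 0
  | cons _ ch sib => cost ch + (M ch + 1) * (E sib).length + (M ch + 2) * cost sib

theorem cost_add_length (F : RF V) : cost F + (E F).length = M F := by
  induction F with
  | nil => rfl
  | cons v ch sib ih1 ih2 =>
    simp only [cost, E, M, List.length_append, List.length_cons]
    rw [← ih1, ← ih2]
    ring

variable [DecidableEq V]

/-- the parent-closed subsets -/
def J : RF V → Finset (Finset V)
  | nil => {∅}
  | cons v ch sib => ((insert ∅ ((J ch).image (insert v))) ×ˢ (J sib)).image (fun x => x.1 ∪ x.2)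

theorem mem_J_cons {v : V} {ch sib : RF V} {f : Finset V} :
    f ∈ J (cons v ch sib) ↔ ∃ f1 f2, (f1 = ∅ ∨ ∃ f3 ∈ J ch, f1 = insert v f3) ∧ f2 ∈ J sib ∧
      f = f1 ∪ f2 := by
  simp only [J, Finset.mem_image, Finset.mem_product, Finset.mem_insert, Prod.exists]
  constructor
  · rintro ⟨a, b, ⟨h1, h2⟩, h3⟩
    refine ⟨a, b, ?_, h2, h3.symm⟩
    rcases h1 with h | ⟨c, hc, h⟩
    · exact Or.inl h
    · exact Or.inr ⟨c, hc, h.symm⟩
  · rintro ⟨a, b, h1, h2, h3⟩
    refine ⟨a, b, ⟨?_, h2⟩, h3.symm⟩
    rcases h1 with h | ⟨c, hc, h⟩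
    · exact Or.inl h
    · exact Or.inr ⟨c, hc, h.symm⟩

theorem O_perm (F : RF V) : (O1 F ++ O2 F).Perm (E F) := by
  induction F with
  | nil => exact List.Perm.refl _
  | cons v ch sib ih1 ih2 =>
    simp only [O1, O2, E]
    rw [List.perm_iff_count] at *
    intro a
    have e1 := ih1 a
    have e2 := ih2 a
    split
    · simp only [List.count_append, List.count_cons] at *
      omega
    · simp only [List.count_append, List.count_cons] at *
      omega

end RF

open RF

variable {V : Type*} [Fintype V] [DecidableEq V]

theorem pathP (G : SimpleGraph V) (F : RF V) : ∀ (pre post B0 B1 : List V) (k : ℕ)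
    (S : Finset V → Set (Finset V)), B0.length = B1.length →
    (∀ p s : List V, (p ++ s).Perm (E F) → p.toFinset ∈ J F →
      Reach G (pre ++ (p ++ (B0 ++ (s ++ post)))) (pre ++ (p ++ (B1 ++ (s ++ post)))) k
        (S p.toFinset)) →
    Reach G (pre ++ (B0 ++ (E F ++ post)))
      (pre ++ (O1 F ++ ((if odd F then B1 else B0) ++ (O2 F ++ post))))
      ((M F + 1) * k + M F * B0.length + cost F) {t | ∃ f ∈ J F, t ∈ S f} := by
  induction F with
  | nil =>
    intro pre post B0 B1 k S hl h
    have := h [] [] (by simp [E]) (by simp [J])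
    simp only [E, O1, O2, odd, M, cost, if_true, List.nil_append]
    refine (by simpa using this : Reach G (pre ++ (B0 ++ post)) (pre ++ (B1 ++ post)) k (S ∅)).mono
      (by omega) ?_
    rintro t ⟨f, hf, ht⟩
    simp only [J, Finset.mem_singleton] at hf
    rwa [hf] at ht
  | cons v ch sib ih1 ih2 =>
    intro pre post B0 B1 k S hl h
    set C0 := B0 ++ E sib with hC0
    set C1 := O1 sib ++ ((if odd sib then B1 else B0) ++ O2 sib) with hC1
    set K := (M sib + 1) * k + M sib * B0.length + cost sib with hK
    set S' : Finset V → Set (Finset V) := fun f1 => {t | ∃ f2 ∈ J sib, t ∈ S (f1 ∪ f2)} with hS'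
    have hlC1 : C1.length = B0.length + (E sib).length := by
      have hp := (O_perm sib).length_eq
      rw [List.length_append] at hp
      rw [hC1]
      simp only [List.length_append]
      split
      · omega
      · omega
    have hlC0 : C0.length = B0.length + (E sib).length := by
      rw [hC0, List.length_append]
    have T1 : ∀ p1 s1 : List V, (p1 ++ s1).Perm (v :: E ch) →
        (p1.toFinset = ∅ ∨ ∃ f3 ∈ J ch, p1.toFinset = insert v f3) →
        Reach G (pre ++ (p1 ++ (C0 ++ (s1 ++ post)))) (pre ++ (p1 ++ (C1 ++ (s1 ++ post)))) K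
          (S' p1.toFinset) := by
      intro p1 s1 hperm hf1
      have := ih2 (pre ++ p1) (s1 ++ post) B0 B1 k (fun f2 => S (p1.toFinset ∪ f2)) hl (by
        intro p2 s2 hperm2 hf2
        have h3 := h (p1 ++ p2) (s2 ++ s1) (by
          rw [List.perm_iff_count] at *
          intro a
          have e1 := hperm a
          have e2 := hperm2 a
          simp only [E, List.count_append] at *
          omega) (by
          rw [mem_J_cons]
          exact ⟨p1.toFinset, p2.toFinset, hf1, hf2, by simp⟩)
        simpa [List.append_assoc] using h3)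
      simpa [hC0, hC1, List.append_assoc] using this
    have step1 := T1 [] (v :: E ch) (by simp) (Or.inl (by simp))
    have step2 := (Reach.cross G pre (E ch ++ post) v C1).symm
    have step3 := ih1 (pre ++ [v]) post C1 C0 K (fun f3 => S' (insert v f3)) (by rw [hlC0, hlC1]) (by
      intro p3 s3 hperm hf3
      have h3 := (T1 (v :: p3) s3 (by simpa using hperm) (Or.inr ⟨_, hf3, by simp⟩)).symm
      simpa using h3)
    have step12 : Reach G (pre ++ (C0 ++ (v :: E ch ++ post)))
        ((pre ++ [v]) ++ (C1 ++ (E ch ++ post))) (K + C1.length) (S' ∅ ∪ ∅) := by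
      refine Reach.trans (w' := pre ++ (C1 ++ (v :: E ch ++ post))) (by simpa using step1) ?_
      simpa using step2
    have step123 := step12.trans step3
    have hw1 : pre ++ (C0 ++ (v :: E ch ++ post)) = pre ++ (B0 ++ (E (cons v ch sib) ++ post)) := by
      simp [hC0, E]
    have hw2 : (pre ++ [v]) ++ (O1 ch ++ ((if odd ch then C0 else C1) ++ (O2 ch ++ post))) =
        pre ++ (O1 (cons v ch sib) ++ ((if odd (cons v ch sib) then B1 else B0) ++
          (O2 (cons v ch sib) ++ post))) := by
      rcases hoc : odd ch with _ | _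
      · simp [O1, O2, odd, hoc, hC1]
      · simp [O1, O2, odd, hoc, hC0]
    rw [hw1, hw2] at step123
    refine step123.mono ?_ ?_
    · rw [hlC1, hK]
      simp only [M, cost]
      apply le_of_eq
      ring
    · rintro t ⟨f, hf, ht⟩
      rw [mem_J_cons] at hf
      obtain ⟨f1, f2, hf1, hf2, rfl⟩ := hf
      rcases hf1 with rfl | ⟨f3, hf3, rfl⟩
      · left; left
        exact ⟨f2, hf2, ht⟩
      · right
        exact ⟨f3, hf3, f2, hf2, ht⟩

/-- `t` lives inside `pre ∪ f` and has no neighbour there -/
def LiveAt (G : SimpleGraph V) (pre : List V) (f : Finset V) (t : Finset V) : Prop :=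
  (∀ a ∈ t, a ∈ pre ∨ a ∈ f) ∧ ∀ b, (b ∈ pre ∨ b ∈ f) → b ∉ t → ∀ c ∈ t, ¬ G.Adj c b

/-- the path from the even to the odd word -/
theorem pathJ (G : SimpleGraph V) (F : RF V) (pre post : List V) :
    Reach G (pre ++ (E F ++ post)) (pre ++ ((O1 F ++ O2 F) ++ post)) (cost F)
      {t | ∃ f ∈ J F, LiveAt G pre f t} := by
  have := pathP G F pre post [] [] 0 (fun f => {t | LiveAt G pre f t}) rfl (by
    intro p s _ _
    refine (Reach.refl G _).mono (le_refl 0) ?_
    rintro t ht
    refine ⟨pre ++ p, s ++ post, by simp, ?_, ?_⟩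
    · intro a ha
      have := ht.1 a ha
      simpa using this
    · intro b hb hbt c hc
      exact ht.2 b (by simpa using hb) hbt c hc)
  refine (by simpa using this : Reach G (pre ++ (E F ++ post)) (pre ++ (O1 F ++ (O2 F ++ post)))
    (cost F) _).mono (le_refl _) ?_ |> fun h => by simpa using h
  intro t ht
  exact ht

end Pool.Agent.H56.FH
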