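import Pool.Agent.H56.FH.Count

/-!
Every finite tree is given by a rooted forest structure.
-/

namespace Pool.Agent.H56.FH

namespace RF

variable {V : Type*} [DecidableEq V]

/-- attach a new leaf `x` at `u` -/
def ins (u x : V) : V → RF V → RF V
  | z, nil => if u = z then cons x nil nil else nil
  | z, cons v ch sib =>
    if u = z then cons x nil (cons v ch sib)
    else if u ∈ v :: E ch then cons v (ins u x v ch) sib
    else cons v ch (ins u x z sib)

theorem ins_perm (u x : V) (F : RF V) : ∀ z, u ∈ z :: E F →
    (E (ins u x z F)).Perm (x :: E F) := by
  induction F with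
  | nil =>
    intro z hu
    have : u = z := by simpa [E] using hu
    simp [ins, this, E]
  | cons v ch sib ih1 ih2 =>
    intro z hu
    simp only [ins]
    split
    · simp only [E]
      rw [List.perm_iff_count]
      intro a
      simp only [List.count_append, List.count_cons, List.count_nil]
      omega
    · rename_i huz
      split
      · rename_i huv
        have := ih1 v huv
        simp only [E]
        rw [List.perm_iff_count] at *
        intro a
        have := this a
        simp only [List.count_append, List.count_cons] at *
        omega
      · rename_i huv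
        have hus : u ∈ z :: E sib := by
          simp only [E, List.mem_cons, List.mem_append] at hu huv ⊢
          tauto
        have := ih2 z hus
        simp only [E]
        rw [List.perm_iff_count] at *
        intro a
        have := this a
        simp only [List.count_append, List.count_cons] at *
        omega

theorem ins_rep {G : SimpleGraph V} {u x : V} (hux : G.Adj u x) (F : RF V) : ∀ z,
    Rep G z F → Rep G z (ins u x z F) := by
  induction F with
  | nil =>
    intro z _
    simp only [ins]
    split
    · rename_i h
      subst h
      exact ⟨hux, trivial, trivial⟩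
    · trivial
  | cons v ch sib ih1 ih2 =>
    intro z hr
    obtain ⟨r1, r2, r3⟩ := hr
    simp only [ins]
    split
    · rename_i h
      subst h
      exact ⟨hux, trivial, r1, r2, r3⟩
    · split
      · exact ⟨r1, ih1 v r2, r3⟩
      · exact ⟨r1, r2, ih2 z r3⟩

theorem ins_sep {G : SimpleGraph V} {u x : V} (F : RF V) : ∀ z,
    Sep G z F → u ∈ z :: E F → (z :: E F).Nodup → (∀ y ∈ z :: E F, y ≠ u → ¬ G.Adj x y) →
    Sep G z (ins u x z F) := by
  induction F with
  | nil =>
    intro z _ hu _ _
    have : u = z := by simpa [E] using hu
    simp [ins, this, E, Sep]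
  | cons v ch sib ih1 ih2 =>
    intro z hs hu hnd hx
    obtain ⟨s1, s2, s3, s4⟩ := hs
    obtain ⟨hz, hnd'⟩ := List.nodup_cons.mp hnd
    obtain ⟨n1, n2, n3, n4⟩ := nodup_cons hnd'
    have hE : ∀ x, x ∈ E (cons v ch sib) ↔ x ∈ E sib ∨ x = v ∨ x ∈ E ch := by
      intro x; simp [E]
    simp only [ins]
    split
    · rename_i h
      subst h
      refine ⟨by simp [E], ?_, trivial, s1, s2, s3, s4⟩
      intro a ha y hy
      have : a = x := by simpa [E] using ha
      subst this
      exact hx y (List.mem_cons_of_mem _ hy) (fun h => hz (h ▸ hy))
    · rename_i huz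
      split
      · rename_i huv
        have hp := ins_perm u x ch v huv
        refine ⟨?_, ?_, ?_, s4⟩
        · intro y hy
          rcases List.mem_cons.mp (hp.mem_iff.mp hy) with h | h
          · subst h
            exact fun hadj => hx z List.mem_cons_self (fun h => huz h.symm) hadj.symm
          · exact s1 y h
        · intro a ha b hb
          rcases List.mem_cons.mp ha with h | h
          · exact s2 a (by rw [h]; exact List.mem_cons_self) b hb
          · rcases List.mem_cons.mp (hp.mem_iff.mp h) with h | h
            · subst h
              refine hx b (List.mem_cons_of_mem _ ((hE b).mpr (Or.inl hb))) ?_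
              intro hbu
              exact n4 u huv (hbu ▸ hb)
            · exact s2 a (List.mem_cons_of_mem _ h) b hb
        · apply ih1 v s3 huv (List.nodup_cons.mpr ⟨n3, n2⟩)
          intro y hy hyu
          refine hx y (List.mem_cons_of_mem _ ((hE y).mpr (Or.inr ?_))) hyu
          exact List.mem_cons.mp hy
      · rename_i huv
        have hus : u ∈ z :: E sib := by
          simp only [E, List.mem_cons, List.mem_append] at hu huv ⊢
          tauto
        have hp := ins_perm u x sib z hus
        refine ⟨s1, ?_, s3, ?_⟩
        · intro a ha b hb
          rcases List.mem_cons.mp (hp.mem_iff.mp hb) with h | h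
          · subst h
            refine fun hadj => hx a (List.mem_cons_of_mem _ ((hE a).mpr (Or.inr (List.mem_cons.mp ha)))) ?_
              hadj.symm
            intro h
            exact huv (h ▸ ha)
          · exact s2 a ha b h
        · apply ih2 z s4 hus (List.nodup_cons.mpr ⟨?_, n1⟩)
          · intro y hy hyu
            rcases List.mem_cons.mp hy with h | h
            · exact hx y (by rw [h]; exact List.mem_cons_self) hyu
            · exact hx y (List.mem_cons_of_mem _ ((hE y).mpr (Or.inl h))) hyu
          · intro h
            exact hz ((hE z).mpr (Or.inl h))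

end RF

open RF

variable {V : Type*} [Fintype V] [DecidableEq V]

theorem exists_forest {G : SimpleGraph V} (hG : G.IsTree) (r : V) :
    ∀ k : ℕ, k + 1 ≤ Fintype.card V → ∃ F : RF V, (r :: E F).Nodup ∧ (E F).length = k ∧
      Sep G r F ∧ Rep G r F := by
  intro k
  induction k with
  | zero =>
    intro _
    exact ⟨nil, by simp [E], by simp [E], trivial, trivial⟩
  | succ k ih =>
    intro hk
    obtain ⟨F, hnd, hlen, hsep, hrep⟩ := ih (by omega)
    -- a vertex outside
    obtain ⟨b, hb⟩ : ∃ b, b ∉ r :: E F := by
      by_contra hcon
      push Not at hcon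
      have : (Finset.univ : Finset V) ⊆ (r :: E F).toFinset := by
        intro v _
        rw [List.mem_toFinset]
        exact hcon v
      have h1 := Finset.card_le_card this
      rw [List.toFinset_card_of_nodup hnd, Finset.card_univ, List.length_cons] at h1
      omega
    have hconn : Conn G (insert r (E F).toFinset) := conn_of_J F r hrep _ (full_mem_J F)
    have hmem : ∀ v, v ∈ insert r (E F).toFinset ↔ v ∈ r :: E F := by
      intro v; simp
    obtain ⟨u, -, huS, x, -, hxS, hux⟩ := (conn_univ hG.1).exists_adj
      (s := insert r (E F).toFinset) (Finset.mem_univ r) (Finset.mem_insert_self _ _)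
      (Finset.mem_univ b) (by rw [hmem]; exact hb)
    have hu : u ∈ r :: E F := (hmem u).mp huS
    have hx : x ∉ r :: E F := fun h => hxS ((hmem x).mpr h)
    have huniq : ∀ y ∈ r :: E F, y ≠ u → ¬ G.Adj x y := by
      intro y hy hyu hxy
      have hyS : y ∈ insert r (E F).toFinset := (hmem y).mpr hy
      have hr : (G.induce ((insert r (E F).toFinset : Finset V) : Set V)).Reachable
          ⟨u, by simpa using huS⟩ ⟨y, by simpa using hyS⟩ :=
        SimpleGraph.Connected.preconnected hconn _ _
      obtain ⟨w⟩ := hr
      classical
      let p0 := w.toPath
      let p : G.Path u y := p0.mapEmbedding (SimpleGraph.Embedding.induce _)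
      have hux' : u ≠ x := hux.ne
      have hxy' : x ≠ y := hxy.ne
      let q0 : G.Walk u y := SimpleGraph.Walk.cons hux (SimpleGraph.Walk.cons hxy SimpleGraph.Walk.nil)
      have hq0 : q0.IsPath := by
        simp only [q0, SimpleGraph.Walk.cons_isPath_iff, SimpleGraph.Walk.IsPath.nil,
          SimpleGraph.Walk.support_nil, SimpleGraph.Walk.support_cons, List.mem_cons]
        simp [hux', hxy', hyu.symm]
      have he : p = ⟨q0, hq0⟩ := (hG.2.subsingleton_path u y).elim p ⟨q0, hq0⟩
      have h1 : x ∈ (p : G.Walk u y).support := by
        rw [he]
        simp [q0]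
      have h2 : ∀ z ∈ (p : G.Walk u y).support, z ∈ insert r (E F).toFinset := by
        intro z hz
        have hz' : z ∈ (p0.1.map
            (SimpleGraph.Embedding.induce ((insert r (E F).toFinset : Finset V) : Set V)).toHom).support := hz
        rw [SimpleGraph.Walk.support_map, List.mem_map] at hz'
        obtain ⟨a, _, ha⟩ := hz'
        rw [← ha]
        exact a.2
      exact hxS (h2 x h1)
    refine ⟨ins u x r F, ?_, ?_, ins_sep F r hsep hu hnd huniq, ins_rep hux F r hrep⟩
    · have hp := ins_perm u x F r hu
      have : (r :: E (ins u x r F)).Perm (x :: r :: E F) :=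
        (List.Perm.cons r hp).trans (List.Perm.swap x r (E F))
      rw [this.nodup_iff, List.nodup_cons]
      exact ⟨hx, hnd⟩
    · have hp := (ins_perm u x F r hu).length_eq
      rw [hp, List.length_cons, hlen]

/-- The graph associahedron of every finite tree with at least three vertices has a
facet-Hamiltonian cycle. -/
theorem facetHamiltonian_tree (G : SimpleGraph V) (hG : G.IsTree) (h3 : 3 ≤ Fintype.card V) :
    FacetHamiltonian G := by
  obtain ⟨r⟩ := hG.1.nonempty
  obtain ⟨F, hnd, hlen, hsep, hrep⟩ := exists_forest hG r (Fintype.card V - 1) (by omega)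
  refine facetHamiltonian_of_forest h3 F r hnd ?_ hsep hrep
  intro v
  have h1 : (r :: E F).toFinset = Finset.univ := by
    apply Finset.eq_univ_of_card
    rw [List.toFinset_card_of_nodup hnd, List.length_cons, hlen]
    omega
  have := Finset.mem_univ v
  rw [← h1, List.mem_toFinset] at this
  exact this

end Pool.Agent.H56.FH
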