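import Pool.Agent.H56.FH.Cycle

/-!
Maximal tubings from words (linear orders on the vertices), adjacent swaps, and walks.
-/

namespace Pool.Agent.H56.FH

variable {V : Type*} [Fintype V] [DecidableEq V]

/-- `t` is contained in the list `p` and no other element of `p` is adjacent to `t`. -/
def AliveIn (G : SimpleGraph V) (p : List V) (t : Finset V) : Prop :=
  (∀ a ∈ t, a ∈ p) ∧ ∀ b ∈ p, b ∉ t → ∀ c ∈ t, ¬ G.Adj c b

def Alive (G : SimpleGraph V) (w : List V) (t : Finset V) : Prop :=
  ∃ p q, w = p ++ q ∧ AliveIn G p t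

open Classical in
/-- the tubes alive in the word `w` -/
noncomputable def TT (G : SimpleGraph V) (w : List V) : Finset (Finset V) :=
  Finset.univ.filter (fun t => IsTube G t ∧ Alive G w t)

omit [DecidableEq V] in
theorem mem_TT {G : SimpleGraph V} {w : List V} {t : Finset V} :
    t ∈ TT G w ↔ IsTube G t ∧ Alive G w t := by
  simp [TT]

/-- a word containing each vertex exactly once -/
def Full (w : List V) : Prop := w.Nodup ∧ ∀ v, v ∈ w

omit [Fintype V] [DecidableEq V] in
theorem AliveIn.congr {G : SimpleGraph V} {p p' : List V} {t : Finset V} (h : AliveIn G p t)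
    (hp : ∀ x, x ∈ p ↔ x ∈ p') : AliveIn G p' t :=
  ⟨fun a ha => (hp a).mp (h.1 a ha), fun b hb => h.2 b ((hp b).mpr hb)⟩

theorem compat_of_alive {G : SimpleGraph V} {w : List V} {s t : Finset V}
    (hs : IsTube G s) (ht : IsTube G t) (has : Alive G w s) (hat : Alive G w t) :
    Compatible G s t := by
  have key : ∀ s t : Finset V, IsTube G s → IsTube G t → ∀ p p' : List V,
      AliveIn G p s → AliveIn G p' t → (∀ x ∈ p, x ∈ p') → Compatible G s t := by
    intro s t hs ht p p' h1 h2 hsub
    unfold Compatible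
    by_contra hcon
    push Not at hcon
    obtain ⟨hst, hts, hconn⟩ := hcon
    obtain ⟨y, hys, hyt⟩ := Finset.not_subset.mp hst
    obtain ⟨a, ha⟩ := ht.1
    have hC : Conn G (s ∪ t) := hconn
    obtain ⟨c, -, hct, x, hx, hxt, hcx⟩ := hC.exists_adj (s := t) (Finset.mem_union_right _ ha) ha
      (Finset.mem_union_left _ hys) hyt
    have hxs : x ∈ s := by
      rcases Finset.mem_union.mp hx with h | h
      · exact h
      · exact absurd h hxt
    exact h2.2 x (hsub x (h1.1 x hxs)) hxt c hct hcx
  have csymm : ∀ s t : Finset V, Compatible G s t → Compatible G t s := by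
    rintro s t (h | h | h)
    · exact Or.inr (Or.inl h)
    · exact Or.inl h
    · exact Or.inr (Or.inr (by rwa [Finset.union_comm] at h))
  obtain ⟨p, q, hw, h1⟩ := has
  obtain ⟨p', q', hw', h2⟩ := hat
  rcases List.append_eq_append_iff.mp (hw.symm.trans hw') with ⟨as, h, -⟩ | ⟨bs, h, -⟩
  · exact key s t hs ht p p' h1 h2 (fun x hx => by rw [h]; exact List.mem_append_left _ hx)
  · exact csymm _ _ (key t s ht hs p' p h2 h1
      (fun x hx => by rw [h]; exact List.mem_append_left _ hx))

theorem enemy_of_not_alive {G : SimpleGraph V} {w : List V} (hw : Full w) {t : Finset V}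
    (ht : IsTube G t) (hna : ¬ Alive G w t) :
    ∃ r, IsTube G r ∧ Alive G w r ∧ ¬ Compatible G r t := by
  classical
  have hex : ∃ n, ∃ p q, w = p ++ q ∧ p.length = n ∧ ∀ a ∈ t, a ∈ p :=
    ⟨w.length, w, [], by simp, rfl, fun a _ => hw.2 a⟩
  obtain ⟨p, q, hpq, hlen, hsub⟩ := Nat.find_spec hex
  have hmin := fun m (hm : m < Nat.find hex) => Nat.find_min hex hm
  rw [← hlen] at hmin
  obtain ⟨a0, ha0⟩ := ht.1
  rcases List.eq_nil_or_concat p with hp | ⟨p0, v, hp⟩
  · subst hp
    exact absurd (hsub a0 ha0) (by simp)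
  · subst hp
    have hvt : v ∈ t := by
      by_contra hvt
      apply hmin p0.length (by simp)
      refine ⟨p0, v :: q, by rw [hpq]; simp, rfl, ?_⟩
      intro a ha
      have := hsub a ha
      simp only [List.concat_eq_append, List.mem_append, List.mem_singleton] at this
      rcases this with h | h
      · exact h
      · exact absurd (h ▸ ha) hvt
    have hnal : ¬ AliveIn G (p0.concat v) t := fun h => hna ⟨_, _, hpq, h⟩
    unfold AliveIn at hnal
    push Not at hnal
    obtain ⟨b, hb, hbt, c, hct, hcb⟩ := hnal hsub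
    have hbp0 : b ∈ p0 := by
      simp only [List.concat_eq_append, List.mem_append, List.mem_singleton] at hb
      rcases hb with h | h
      · exact h
      · exact absurd (h ▸ hvt) hbt
    obtain ⟨p1, p2, hp12⟩ := List.append_of_mem hbp0
    obtain ⟨s, hbs, hsS, hsc, hscl⟩ := exists_closed (G := G) (s0 := {b})
      (S := (p1 ++ [b]).toFinset) (conn_singleton G b) (by simp)
    have hbs' : b ∈ s := hbs (Finset.mem_singleton_self b)
    have hvs : v ∉ s := by
      intro h
      have h1 := hsS h
      rw [List.mem_toFinset] at h1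
      have hnd := hw.1
      rw [hpq, hp12] at hnd
      simp only [List.concat_eq_append, List.append_assoc, List.cons_append] at hnd
      rw [List.nodup_append] at hnd
      obtain ⟨_, hnd2, hnd3⟩ := hnd
      rw [List.mem_append, List.mem_singleton] at h1
      rcases h1 with h1 | h1
      · exact hnd3 v h1 v (by simp) rfl
      · subst h1
        exact hbt hvt
    refine ⟨s, ⟨hsc.nonempty, ?_, hsc⟩, ⟨p1 ++ [b], p2 ++ (v :: q), ?_, ?_, ?_⟩, ?_⟩
    · intro h
      exact hvs (h ▸ Finset.mem_univ v)
    · rw [hpq, hp12]; simp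
    · intro x hx
      exact List.mem_toFinset.mp (hsS hx)
    · intro x hx hxs d hd
      exact hscl x (List.mem_toFinset.mpr hx) hxs d hd
    · rintro (h | h | h)
      · exact hbt (h hbs')
      · exact hvs (h hvt)
      · exact h (hsc.union_adj ht.2.2 hbs' hct hcb.symm)

theorem isMaxTubing_TT {G : SimpleGraph V} {w : List V} (hw : Full w) :
    IsMaxTubing G (TT G w) := by
  refine ⟨⟨fun t ht => (mem_TT.mp ht).1, fun s hs t ht => ?_⟩, ?_⟩
  · rw [mem_TT] at hs ht
    exact compat_of_alive hs.1 ht.1 hs.2 ht.2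
  · intro T' hT' hsub
    apply Finset.Subset.antisymm _ hsub
    intro t ht
    rw [mem_TT]
    refine ⟨hT'.1 t ht, ?_⟩
    by_contra hna
    obtain ⟨r, hr1, hr2, hr3⟩ := enemy_of_not_alive hw (hT'.1 t ht) hna
    exact hr3 (hT'.2 r (hsub (mem_TT.mpr ⟨hr1, hr2⟩)) t ht)

omit [Fintype V] [DecidableEq V] in
theorem split_cases {p q p' q' : List V} {a b : V} (h : p ++ a :: b :: q = p' ++ q') :
    (∃ s, p = p' ++ s) ∨ p' = p ++ [a] ∨ ∃ q1, p' = p ++ a :: b :: q1 ∧ q = q1 ++ q' := by
  rcases List.append_eq_append_iff.mp h with ⟨as, h1, h2⟩ | ⟨bs, h1, h2⟩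
  · rcases as with _ | ⟨x, as⟩
    · left; exact ⟨[], by simp at h1; simp [h1]⟩
    · rw [List.cons_append, List.cons.injEq] at h2
      obtain ⟨rfl, h2⟩ := h2
      rcases as with _ | ⟨y, as⟩
      · right; left; exact h1
      · rw [List.cons_append, List.cons.injEq] at h2
        obtain ⟨rfl, h2⟩ := h2
        right; right; exact ⟨as, h1, h2⟩
  · left; exact ⟨bs, h1⟩

omit [Fintype V] [DecidableEq V] in
theorem alive_swap {G : SimpleGraph V} {p q : List V} {a b : V} {t : Finset V}
    (h : Alive G (p ++ a :: b :: q) t) (h' : ¬ Alive G (p ++ b :: a :: q) t) :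
    a ∈ t ∧ AliveIn G (p ++ [a]) t := by
  obtain ⟨p', q', hpq, hal⟩ := h
  rcases split_cases hpq with ⟨s, hs⟩ | hs | ⟨q1, hs, hq⟩
  · exact absurd ⟨p', s ++ b :: a :: q, by rw [hs]; simp, hal⟩ h'
  · subst hs
    refine ⟨?_, hal⟩
    by_contra hat
    apply h'
    refine ⟨p, b :: a :: q, rfl, ?_, ?_⟩
    · intro x hx
      have := hal.1 x hx
      rw [List.mem_append, List.mem_singleton] at this
      rcases this with h | h
      · exact h
      · exact absurd (h ▸ hx) hat
    · intro x hx
      exact hal.2 x (List.mem_append_left _ hx)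
  · exfalso
    apply h'
    refine ⟨p ++ b :: a :: q1, q', by rw [hq]; simp, hal.congr ?_⟩
    intro x
    rw [hs]
    simp only [List.mem_append, List.mem_cons]
    tauto

theorem alive_unique {G : SimpleGraph V} {p : List V} {a : V} {s t : Finset V}
    (hs : IsTube G s) (ht : IsTube G t)
    (h1 : a ∈ s ∧ AliveIn G (p ++ [a]) s) (h2 : a ∈ t ∧ AliveIn G (p ++ [a]) t) : s = t := by
  have key : ∀ s t : Finset V, IsTube G s → IsTube G t →
      (a ∈ s ∧ AliveIn G (p ++ [a]) s) → (a ∈ t ∧ AliveIn G (p ++ [a]) t) → s ⊆ t := by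
    intro s t hs ht h1 h2 y hy
    by_contra hyt
    obtain ⟨c, hcs, hct, x, hxs, hxt, hcx⟩ := Conn.exists_adj (G := G) (u := s) (s := t) hs.2.2
      h1.1 h2.1 hy hyt
    exact h2.2.2 x (h1.2.1 x hxs) hxt c hct hcx
  exact Finset.Subset.antisymm (key s t hs ht h1 h2) (key t s ht hs h2 h1)

theorem card_sdiff_le_one {G : SimpleGraph V} {p q : List V} {a b : V} :
    (TT G (p ++ a :: b :: q) \ TT G (p ++ b :: a :: q)).card ≤ 1 := by
  rw [Finset.card_le_one]
  intro s hs t ht
  rw [Finset.mem_sdiff, mem_TT, mem_TT] at hs ht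
  obtain ⟨⟨hs1, hs2⟩, hs3⟩ := hs
  obtain ⟨⟨ht1, ht2⟩, ht3⟩ := ht
  exact alive_unique hs1 ht1 (alive_swap hs2 (fun h => hs3 ⟨hs1, h⟩))
    (alive_swap ht2 (fun h => ht3 ⟨ht1, h⟩))

theorem swap_dichotomy {G : SimpleGraph V} {p q : List V} {a b : V}
    (hw : Full (p ++ a :: b :: q)) (hw' : Full (p ++ b :: a :: q)) :
    TT G (p ++ a :: b :: q) = TT G (p ++ b :: a :: q) ∨
    ShareAllButOne (TT G (p ++ a :: b :: q)) (TT G (p ++ b :: a :: q)) := by
  by_cases h : TT G (p ++ a :: b :: q) = TT G (p ++ b :: a :: q)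
  · left; exact h
  · right
    have m1 := isMaxTubing_TT (G := G) hw
    have m2 := isMaxTubing_TT (G := G) hw'
    constructor
    · apply le_antisymm card_sdiff_le_one
      rw [Nat.one_le_iff_ne_zero]
      intro h0
      rw [Finset.card_eq_zero, Finset.sdiff_eq_empty_iff_subset] at h0
      exact h (m1.2 _ m2.1 h0).symm
    · apply le_antisymm card_sdiff_le_one
      rw [Nat.one_le_iff_ne_zero]
      intro h0
      rw [Finset.card_eq_zero, Finset.sdiff_eq_empty_iff_subset] at h0
      exact h (m2.2 _ m1.1 h0)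

/-! ### Walks -/

/-- from `w` one can walk to `w'` by at most `k` flips, meeting all the tubes in `S` -/
def Reach (G : SimpleGraph V) (w w' : List V) (k : ℕ) (S : Set (Finset V)) : Prop :=
  w.Perm w' ∧ (Full w → ∃ (L : ℕ) (f : ℕ → Finset (Finset V)), L ≤ k ∧ f 0 = TT G w ∧
    f L = TT G w' ∧ (∀ i, i ≤ L → IsMaxTubing G (f i)) ∧
    (∀ i, i < L → ShareAllButOne (f i) (f (i + 1))) ∧
    ∀ t ∈ S, IsTube G t → ∃ i, i ≤ L ∧ t ∈ f i)

omit [Fintype V] [DecidableEq V] in
theorem Full.perm {w w' : List V} (h : Full w) (hp : w.Perm w') : Full w' :=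
  ⟨hp.nodup_iff.mp h.1, fun v => hp.mem_iff.mp (h.2 v)⟩

theorem Reach.refl (G : SimpleGraph V) (w : List V) : Reach G w w 0 {t | Alive G w t} := by
  refine ⟨List.Perm.refl _, fun hw => ⟨0, fun _ => TT G w, le_refl _, rfl, rfl, ?_, ?_, ?_⟩⟩
  · intro i _; exact isMaxTubing_TT hw
  · intro i hi; omega
  · intro t ht htt; exact ⟨0, le_refl _, mem_TT.mpr ⟨htt, ht⟩⟩

theorem Reach.mono {G : SimpleGraph V} {w w' : List V} {k k' : ℕ} {S S' : Set (Finset V)}
    (h : Reach G w w' k S) (hk : k ≤ k') (hS : S' ⊆ S) : Reach G w w' k' S' := by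
  refine ⟨h.1, fun hw => ?_⟩
  obtain ⟨L, f, h1, h2, h3, h4, h5, h6⟩ := h.2 hw
  exact ⟨L, f, h1.trans hk, h2, h3, h4, h5, fun t ht => h6 t (hS ht)⟩

theorem Reach.trans {G : SimpleGraph V} {w w' w'' : List V} {k k' : ℕ} {S S' : Set (Finset V)}
    (h : Reach G w w' k S) (h' : Reach G w' w'' k' S') : Reach G w w'' (k + k') (S ∪ S') := by
  refine ⟨h.1.trans h'.1, fun hw => ?_⟩
  obtain ⟨L, f, h1, h2, h3, h4, h5, h6⟩ := h.2 hw
  obtain ⟨M, g, g1, g2, g3, g4, g5, g6⟩ := h'.2 (hw.perm h.1)
  refine ⟨L + M, fun i => if i ≤ L then f i else g (i - L), by omega, ?_, ?_, ?_, ?_, ?_⟩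
  · simp [h2]
  · by_cases hM : M = 0
    · subst hM
      simp only [add_zero, le_refl, if_true]
      rw [h3, ← g2, g3]
    · have : ¬ (L + M ≤ L) := by omega
      simp only [this, if_false]
      rw [show L + M - L = M by omega, g3]
  · intro i hi
    by_cases hiL : i ≤ L
    · simp only [hiL, if_true]; exact h4 i hiL
    · simp only [hiL, if_false]; exact g4 _ (by omega)
  · intro i hi
    by_cases hiL : i < L
    · have e1 : i ≤ L := by omega
      have e2 : i + 1 ≤ L := by omega
      simp only [e1, e2, if_true]; exact h5 i hiL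
    · by_cases hiL' : i = L
      · subst hiL'
        have e2 : ¬ (i + 1 ≤ i) := by omega
        simp only [le_refl, if_true, e2, if_false]
        rw [h3, ← g2, show i + 1 - i = 0 + 1 by omega]
        exact g5 0 (by omega)
      · have e1 : ¬ (i ≤ L) := by omega
        have e2 : ¬ (i + 1 ≤ L) := by omega
        simp only [e1, e2, if_false]
        rw [show i + 1 - L = (i - L) + 1 by omega]
        exact g5 _ (by omega)
  · rintro t (ht | ht) htt
    · obtain ⟨i, hi, hti⟩ := h6 t ht htt
      exact ⟨i, by omega, by simp only [hi, if_true]; exact hti⟩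
    · obtain ⟨i, hi, hti⟩ := g6 t ht htt
      by_cases hi0 : i = 0
      · subst hi0
        refine ⟨L, by omega, ?_⟩
        simp only [le_refl, if_true]
        rw [h3, ← g2]; exact hti
      · refine ⟨L + i, by omega, ?_⟩
        have : ¬ (L + i ≤ L) := by omega
        simp only [this, if_false]
        rw [show L + i - L = i by omega]; exact hti

omit [Fintype V] in
theorem ShareAllButOne.symm {X Y : Finset (Finset V)} (h : ShareAllButOne X Y) :
    ShareAllButOne Y X := ⟨h.2, h.1⟩

theorem Reach.symm {G : SimpleGraph V} {w w' : List V} {k : ℕ} {S : Set (Finset V)}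
    (h : Reach G w w' k S) : Reach G w' w k S := by
  refine ⟨h.1.symm, fun hw => ?_⟩
  obtain ⟨L, f, h1, h2, h3, h4, h5, h6⟩ := h.2 (hw.perm h.1.symm)
  refine ⟨L, fun i => f (L - i), h1, ?_, ?_, ?_, ?_, ?_⟩
  · simp [h3]
  · simp [h2]
  · intro i hi; exact h4 _ (by omega)
  · intro i hi
    have := (h5 (L - (i + 1)) (by omega)).symm
    rwa [show L - (i + 1) + 1 = L - i by omega] at this
  · intro t ht htt
    obtain ⟨i, hi, hti⟩ := h6 t ht htt
    exact ⟨L - i, by omega, by simp only [show L - (L - i) = i by omega]; exact hti⟩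

theorem Reach.swap (G : SimpleGraph V) (p q : List V) (a b : V) :
    Reach G (p ++ a :: b :: q) (p ++ b :: a :: q) 1 ∅ := by
  have hperm : (p ++ a :: b :: q).Perm (p ++ b :: a :: q) :=
    List.Perm.append_left p (List.Perm.swap b a q)
  refine ⟨hperm, fun hw => ?_⟩
  have hw' := hw.perm hperm
  rcases swap_dichotomy (G := G) hw hw' with h | h
  · refine ⟨0, fun _ => TT G (p ++ a :: b :: q), by omega, rfl, h, ?_, ?_, ?_⟩
    · intro i _; exact isMaxTubing_TT hw
    · intro i hi; omega
    · intro t ht; exact absurd ht (Set.notMem_empty t)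
  · refine ⟨1, fun i => if i = 0 then TT G (p ++ a :: b :: q) else TT G (p ++ b :: a :: q),
      le_refl _, by simp, by simp, ?_, ?_, ?_⟩
    · intro i _
      by_cases h0 : i = 0
      · simp only [h0, if_true]; exact isMaxTubing_TT hw
      · simp only [h0, if_false]; exact isMaxTubing_TT hw'
    · intro i hi
      have : i = 0 := by omega
      subst this
      simpa using h
    · intro t ht; exact absurd ht (Set.notMem_empty t)

theorem Reach.free {G : SimpleGraph V} {w w' : List V} (hp : w.Perm w')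
    (h : Full w → TT G w = TT G w') : Reach G w w' 0 ∅ := by
  refine ⟨hp, fun hw => ⟨0, fun _ => TT G w, le_refl _, rfl, h hw, ?_, ?_, ?_⟩⟩
  · intro i _; exact isMaxTubing_TT hw
  · intro i hi; omega
  · intro t ht; exact absurd ht (Set.notMem_empty t)

/-- a letter crosses a block -/
theorem Reach.cross (G : SimpleGraph V) (p q : List V) (x : V) (B : List V) :
    Reach G (p ++ x :: (B ++ q)) (p ++ (B ++ x :: q)) B.length ∅ := by
  induction B generalizing p with
  | nil => simpa using (Reach.refl G (p ++ x :: q)).mono (le_refl 0) (Set.empty_subset _)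
  | cons b B ih =>
    have h1 := Reach.swap G p (B ++ q) x b
    have h2 := ih (p ++ [b])
    have h3 := h1.trans (by simpa using h2)
    refine (show Reach G (p ++ x :: (b :: B ++ q)) (p ++ (b :: B ++ x :: q))
      (b :: B).length ∅ from ?_)
    simp only [List.cons_append, List.length_cons]
    refine h3.mono (by omega) (Set.empty_subset _)

omit [Fintype V] [DecidableEq V] in
theorem split_cases2 {p A B q p' q' : List V} (h : p ++ (A ++ (B ++ q)) = p' ++ q') :
    (∃ s, p = p' ++ s) ∨ (∃ A1 A2, A = A1 ++ A2 ∧ p' = p ++ A1) ∨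
    (∃ B1 B2, B = B1 ++ B2 ∧ p' = p ++ (A ++ B1)) ∨
    ∃ q1, q = q1 ++ q' ∧ p' = p ++ (A ++ (B ++ q1)) := by
  rcases List.append_eq_append_iff.mp h with ⟨as, h1, h2⟩ | ⟨bs, h1, h2⟩
  · rcases List.append_eq_append_iff.mp h2 with ⟨as2, h3, h4⟩ | ⟨bs2, h3, h4⟩
    · rcases List.append_eq_append_iff.mp h4 with ⟨as3, h5, h6⟩ | ⟨bs3, h5, h6⟩
      · right; right; right
        exact ⟨as3, h6, by rw [h1, h3, h5]⟩
      · right; right; left
        exact ⟨as2, bs3, h5, by rw [h1, h3]⟩
    · right; left
      exact ⟨as, bs2, h3, h1⟩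
  · left; exact ⟨bs, h1⟩

/-- blocks `A`, `B` with `B` not adjacent to `p` and `A` can be exchanged for free -/
theorem Reach.exchange {G : SimpleGraph V} (p A B q : List V)
    (h1 : ∀ b ∈ B, ∀ x ∈ p, ¬ G.Adj x b) (h2 : ∀ b ∈ B, ∀ x ∈ A, ¬ G.Adj x b) :
    Reach G (p ++ (A ++ (B ++ q))) (p ++ (B ++ (A ++ q))) 0 ∅ := by
  have hperm : (p ++ (A ++ (B ++ q))).Perm (p ++ (B ++ (A ++ q))) := by
    apply List.Perm.append_left
    rw [← List.append_assoc, ← List.append_assoc]
    exact List.Perm.append_right q List.perm_append_comm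
  refine Reach.free hperm (fun hw => ?_)
  have m1 := isMaxTubing_TT (G := G) hw
  have m2 := isMaxTubing_TT (G := G) (hw.perm hperm)
  symm
  apply m1.2 _ m2.1
  intro t ht
  rw [mem_TT] at ht ⊢
  obtain ⟨htube, p', q', hpq, hal⟩ := ht
  refine ⟨htube, ?_⟩
  rcases split_cases2 hpq with ⟨s, hs⟩ | ⟨A1, A2, hA, hp'⟩ | ⟨B1, B2, hB, hp'⟩ | ⟨q1, hq, hp'⟩
  · exact ⟨p', s ++ (B ++ (A ++ q)), by rw [hs]; simp, hal⟩
  · refine ⟨p ++ (B ++ A1), A2 ++ q, by rw [hA]; simp, ?_, ?_⟩
    · intro x hx
      have := hal.1 x hx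
      rw [hp'] at this
      simp only [List.mem_append] at this ⊢
      tauto
    · intro b hb hbt c hc hcb
      have hc' := hal.1 c hc
      rw [hp', List.mem_append] at hc'
      by_cases hbp : b ∈ p'
      · exact hal.2 b hbp hbt c hc hcb
      · have hbB : b ∈ B := by
          rw [hp'] at hbp
          simp only [List.mem_append] at hbp hb
          tauto
        rcases hc' with hc' | hc'
        · exact h1 b hbB c hc' hcb
        · exact h2 b hbB c (by rw [hA]; exact List.mem_append_left _ hc') hcb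
  · by_cases hmeet : ∃ x ∈ t, x ∈ B1
    · -- then t ⊆ B1
      obtain ⟨x0, hx0, hx0B⟩ := hmeet
      have hsub : ∀ y ∈ t, y ∈ B := by
        intro y hy
        by_contra hyB
        obtain ⟨c, hct, hcB, x, hxt, hxB, hcx⟩ := Conn.exists_adj (G := G) (u := t)
          (s := B.toFinset) htube.2.2 hx0
          (by rw [List.mem_toFinset, hB]; exact List.mem_append_left _ hx0B) hy
          (by rw [List.mem_toFinset]; exact hyB)
        rw [List.mem_toFinset] at hcB hxB
        have hx' := hal.1 x hxt
        rw [hp'] at hx'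
        simp only [List.mem_append] at hx'
        rcases hx' with hx' | hx' | hx'
        · exact h1 c hcB x hx' hcx.symm
        · exact h2 c hcB x hx' hcx.symm
        · exact hxB (by rw [hB]; exact List.mem_append_left _ hx')
      have hsub1 : ∀ y ∈ t, y ∈ B1 := by
        intro y hy
        have hyB := hsub y hy
        have hy' := hal.1 y hy
        rw [hp'] at hy'
        have hnd := hw.1
        rw [hB] at hnd
        simp only [List.nodup_append, List.mem_append] at hnd hy'
        rcases hy' with hy' | hy' | hy'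
        · exfalso
          exact hnd.2.2 y hy' y (Or.inr (Or.inl (by rw [hB] at hyB; simpa using hyB))) rfl
        · exfalso
          exact hnd.2.1.2.2 y hy' y (Or.inl (by rw [hB] at hyB; simpa using hyB)) rfl
        · exact hy'
      refine ⟨p ++ B1, B2 ++ (A ++ q), by rw [hB]; simp, ?_, ?_⟩
      · intro y hy
        exact List.mem_append_right _ (hsub1 y hy)
      · intro b hb hbt c hc hcb
        refine hal.2 b ?_ hbt c hc hcb
        rw [hp']
        simp only [List.mem_append] at hb ⊢
        tauto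
    · push Not at hmeet
      refine ⟨p ++ (B ++ A), q, by simp, ?_, ?_⟩
      · intro x hx
        have := hal.1 x hx
        rw [hp'] at this
        simp only [List.mem_append] at this ⊢
        have := hmeet x hx
        tauto
      · intro b hb hbt c hc hcb
        by_cases hbp : b ∈ p'
        · exact hal.2 b hbp hbt c hc hcb
        · have hbB : b ∈ B := by
            rw [hp'] at hbp
            simp only [List.mem_append] at hbp hb
            tauto
          have hc' := hal.1 c hc
          rw [hp'] at hc'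
          simp only [List.mem_append] at hc'
          rcases hc' with hc' | hc' | hc'
          · exact h1 b hbB c hc' hcb
          · exact h2 b hbB c hc' hcb
          · exact hmeet c hc hc'
  · refine ⟨p ++ (B ++ (A ++ q1)), q', by rw [hq]; simp, hal.congr ?_⟩
    intro x
    rw [hp']
    simp only [List.mem_append]
    tauto

end Pool.Agent.H56.FH
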